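import Pool.Agent.Work.MP_7ba843_gt.Y.FP
import Pool.Agent.Work.MP_7ba843_gt.X.Stm

/-! The criterion with free products. -/

open Set Topology Function
open scoped Manifold ContDiff

namespace Pool.Agent.Work.MP_7ba843_gt.Y

open Pool.Agent.Work.MP_735653_gt Pool.Agent.Work.MP_7ba843_gt.N Pool.Agent.Work.MP_7ba843_gt.C
  Pool.Agent.Work.MP_7ba843_gt.S Pool.Agent.Work.MP_7ba843_gt.X

theorem stab_two {Γ G : Type} [Group Γ] [Group G] {g : ℕ} (e : Γ ≃* FreeGroup (Fin g)) {k r : ℕ}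
    (hr : Stab G g r k) {f : Γ →* FreeGroup (Fin k)} {h : FreeGroup (Fin k) →* G}
    (hf : Surjective f) (hh : Surjective h) {f' : Γ →* FreeGroup (Fin r)}
    {h' : FreeGroup (Fin r) →* G} (hf' : Surjective f') (hh' : Surjective h') :
    ∃ α : Γ ≃* Γ, ∀ a, h' (f' (α a)) = h (f a) := by
  have h1 := AlgB_std (f := f.comp e.symm.toMonoidHom) (hf.comp e.symm.surjective) h
  have h2 := AlgB_std (f := f'.comp e.symm.toMonoidHom) (hf'.comp e.symm.surjective) h'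
  have h3 := hr _ _ (AlgB_gen (FreeGroup.closure_range_of (Fin r)) hh')
    (AlgB_gen (FreeGroup.closure_range_of (Fin k)) hh)
  obtain ⟨α, hα⟩ := NE.aut
    (Relation.ReflTransGen.trans (Relation.ReflTransGen.trans h2 h3) h1.symm)
  have key : ∀ φ : FreeGroup (Fin g) →* G, FreeGroup.lift (fun i => φ (FreeGroup.of i)) = φ :=
    fun φ => FreeGroup.ext_hom _ _ fun i => FreeGroup.lift_apply_of
  refine ⟨e.trans (α.trans e.symm), fun a => ?_⟩
  have h4 := hα (e a)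
  have k1 := key (h.comp (f.comp e.symm.toMonoidHom))
  have k2 := key (h'.comp (f'.comp e.symm.toMonoidHom))
  have h5 := (DFunLike.congr_fun k2 _).symm.trans (h4.trans (DFunLike.congr_fun k1 _))
  simpa using h5

section

variable {X : Type} [TopologicalSpace X] [ChartedSpace (EuclideanSpace ℝ (Fin 4)) X]
  [IsManifold (𝓡 4) ∞ X] [T2Space X] [CompactSpace X] [ConnectedSpace X] {g : ℕ}

theorem stab_equiv (e e' : Hb (Fg g) X) {k r : ℕ} (hr : ∀ x : X, Stab (FundamentalGroup X x) g r k)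
    (h : e.Fact k) (h' : e'.Fact r) : e.Equiv e' := by
  have pc := Main_pc X
  obtain ⟨x, f, h, h1, h2, h3⟩ := h
  obtain ⟨f', h', k1, k2, k3⟩ := h'.rebase x
  obtain ⟨F⟩ := (model_free (Main_N g)).2 x
  let γ := PathConnectedSpace.somePath (e.map x) (e'.map x)
  let B := FundamentalGroup.fundamentalGroupMulEquivOfPath γ
  obtain ⟨α, hα⟩ := stab_two F (hr _) (h := B.toMonoidHom.comp h) h1 (B.surjective.comp h2) k1 k2
  refine ⟨x, γ, α, fun a => ?_⟩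
  rw [← k3, ← h3]
  exact (hα a).symm

omit [IsManifold (𝓡 4) ∞ X] [T2Space X] [CompactSpace X] [ConnectedSpace X] in
theorem stab_fact (e : Hb (Fg g) X) {k r : ℕ} (hg : r ≤ g)
    (hr : ∀ x : X, Stab (FundamentalGroup X x) g r k) (h : e.Fact k)
    (hs : ∀ x : X, Gens (FundamentalGroup X x) r) : e.Fact r := by
  obtain ⟨x, f, h, h1, h2, h3⟩ := h
  obtain ⟨s, hs⟩ := hs (e.map x)
  obtain ⟨F⟩ := (model_free (Main_N g)).2 x
  have k1 : Surjective (FreeGroup.lift s) := by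
    rw [← MonoidHom.range_eq_top, FreeGroup.range_lift_eq_closure, hs]
  have k2 : Surjective (std g (FreeGroup.of : Fin r → FreeGroup (Fin r))) := by
    rw [← MonoidHom.range_eq_top, eq_top_iff, ← FreeGroup.closure_range_of, Subgroup.closure_le]
    rintro _ ⟨a, rfl⟩
    exact ⟨FreeGroup.of ⟨a, by omega⟩, (AlgB_std_of _ _).trans (AlgB_ext_val _ a)⟩
  obtain ⟨α, hα⟩ := stab_two F (hr _) h1 h2 (f' := (std g FreeGroup.of).comp F.toMonoidHom)
    (k2.comp F.surjective) k1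
  exact ⟨x, ((std g FreeGroup.of).comp F.toMonoidHom).comp α.toMonoidHom, FreeGroup.lift s,
    (k2.comp F.surjective).comp α.surjective, k1, (MonoidHom.ext hα).trans h3⟩

end

theorem cores (g : ℕ) : ∃ F : (Fin 3 → ℝ) → ℝ, ContDiff ℝ ∞ F ∧
    (∀ x, F x = 0 → fderiv ℝ F x ≠ 0) ∧ Nonempty ({x | 0 ≤ F x} ≃ₜ Th 1 g) ∧
    CoresFP (EuclideanSpace ℝ (Fin 4)) F g := by
  refine ⟨Fg g, (model g).1, (model g).2.1, (model g).2.2, fun X _ _ _ _ _ _ f₀ T h₀ hT h01 => ?_⟩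
  obtain ⟨e₀, rfl⟩ := Fin_hb h₀
  rw [Fin_bdry] at hT
  rw [Fin_body] at h01 ⊢
  have A : ∀ e : Hb (Fg g) X, e₀.Equiv e → ∃ ψ : X ≃ₘ⟮𝓡 4, 𝓡 4⟯ X,
      ψ '' e₀.body = e.body ∧ Trisection g e.bdry fun i => ψ '' T i := fun e h => by
    obtain ⟨ψ, h1, h2⟩ := main_A e₀ e h
    exact ⟨ψ, h1, h2 ▸ Fin_image hT ψ.toHomeomorph⟩
  refine ⟨fun f hf h => ?_, fun x r b hr hb => ?_⟩
  · obtain ⟨e, rfl⟩ := Fin_hb hf
    rw [Fin_body, Fin_bdry]
    exact A e h
  have pc := Main_pc X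
  have mv : ∀ {y z : X} {n : ℕ}, Gens (FundamentalGroup X y) n → Gens (FundamentalGroup X z) n :=
    fun {y z n} h => Fin_gens h (f := (FundamentalGroup.fundamentalGroupMulEquivOfPath
      (PathConnectedSpace.somePath y z)).toMonoidHom) (MulEquiv.surjective _)
  obtain ⟨k₀, h0⟩ := hT.2.2.1 0
  obtain ⟨k₁, h1⟩ := hT.2.2.1 1
  obtain ⟨k₂, h2⟩ := hT.2.2.1 2
  have f0 := tri_fact e₀ hT h01 h0
  have f1 : e₀.Fact k₁ :=
    tri_fact e₀ (Fin_swap hT (Equiv.swap 0 1)) ((inter_comm _ _).trans h01) h1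
  refine ⟨fun hc S => ?_, fun hc f S y hf hS hy => ?_⟩
  · obtain ⟨m1, m2⟩ : (∀ ψ : X ≃ₘ⟮𝓡 4, 𝓡 4⟯ X, ∃ e' : Hb (Fg g) X, e'.bdry = ψ '' e₀.bdry ∧
        e'.Fact r) ∧ ∀ e : Hb (Fg g) X, e.Fact r → e₀.Equiv e := by
      by_cases q : ∃ k, r + k ≤ g ∧ e₀.Fact k
      · obtain ⟨k, hk, hf⟩ := q
        exact ⟨main_B1 e₀ hk hf fun _ => mv hr, fun e => main_B2 e₀ e hk hf⟩
      have q0 : ¬ r + k₀ ≤ g := fun h => q ⟨_, h, f0⟩
      have q1 : ¬ r + k₁ ≤ g := fun h => q ⟨_, h, f1⟩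
      have rk := tri_rank e₀ hT h01 h0 h1 x
      rw [← hb] at rk
      rcases hc with ⟨k, hk, h⟩ | h | ⟨hl, h⟩
      · exact absurd ⟨k, h, tri_fact e₀ hT h01 hk⟩ q
      · omega
      have tf : ∀ {k}, Nonempty (T 0 ≃ₜ Th 2 k) → e₀.Fact k := tri_fact e₀ hT h01
      obtain ⟨j, hj, ej⟩ := Rk_bdry e₀
      rw [ej] at hT
      have l0 := hl _ (mv (tri_gens hj hT h0).choose_spec)
      have l1 := hl _ (mv (tri_gens hj hT h1).choose_spec)
      have l2 := hl _ (mv (tri_gens hj hT h2).choose_spec)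
      rcases h with h | ⟨c, hc, h⟩ | ⟨p, ⟨ι, B, _, ⟨φ⟩, hB⟩, h⟩
      · omega
      · have ec := tri_chi hc hj hT h0 h1 h2
        have u0 := fact_le f0
        have u1 := fact_le f1
        obtain ⟨rfl, rfl, rfl, hb0⟩ : g = 1 ∧ r = 1 ∧ k₀ = 1 ∧ b ≠ 0 := by omega
        refine ⟨push_fact e₀ f0, fun e he => ?_⟩
        obtain ⟨z⟩ := (model_free (Main_N 1)).1.nonempty.to_subtype
        exact main_C e₀ e (one_int (hb ▸ hb0)) (fact_onto f0 z) (fact_onto he z)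
      obtain ⟨k, k1, k2, k3⟩ : ∃ k, p + k ≤ g ∧ r ≤ k ∧ e₀.Fact k := by
        rcases h with ⟨k, hk, h⟩ | ⟨c, hc, h⟩
        · exact ⟨k, h, hl _ (mv (tri_gens hj hT hk).choose_spec), tf hk⟩
        · have ec := tri_chi hc hj hT h0 h1 h2
          by_cases z : p + k₀ ≤ g
          · exact ⟨_, z, l0, f0⟩
          · exact ⟨_, by omega, l1, f1⟩
      have st : ∀ z : X, Stab (FundamentalGroup X z) g r k := fun z =>
        ((stab_fp (fun i => (hB i).imp_right (And.imp_right tame_uni)) (by omega) k1).equiv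
          φ.symm).equiv
          (FundamentalGroup.fundamentalGroupMulEquivOfPath (PathConnectedSpace.somePath x z))
      exact ⟨push_fact e₀ (stab_fact e₀ (by omega) st k3 fun _ => mv hr),
        fun e => stab_equiv e₀ e st k3⟩
    constructor
    · rintro ⟨ψ, h⟩
      have e : S = ψ '' e₀.bdry := h.2.2.2.2.symm.trans (Fin_image hT ψ.toHomeomorph).2.2.2.2
      obtain ⟨e', h1, h2⟩ := m1 ψ
      exact ⟨e'.map, Fin_emb e', (Fin_bdry e').trans (h1.trans e.symm), h2⟩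
    · rintro ⟨f, h1, rfl, he⟩
      obtain ⟨e, rfl⟩ := Fin_hb h1
      obtain ⟨ψ, -, h⟩ := A e (m2 e he)
      exact ⟨ψ, (Fin_bdry e).symm ▸ h⟩
  · obtain ⟨e, rfl⟩ := Fin_hb hf
    rw [Fin_bdry] at hS
    subst hS
    have o : One (FundamentalGroup X x) g := by
      rcases hc with ⟨⟨φ⟩⟩ | ⟨h, hB⟩ | ⟨h, h'⟩
      exacts [(one_free g r).equiv φ.symm, tame_uni hB r g hr h, one_fin h' hr]
    obtain ⟨z⟩ := (model_free (Main_N g)).1.nonempty.to_subtype
    obtain ⟨ψ, -, h⟩ := A e (main_C e₀ e o (fact_onto f0 z) (bdry_onto e y hy z))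
    exact ⟨ψ, h⟩

/-- a group is a free product with one factor -/
theorem freeProd_self {G : Type} [Group G] {P : ∀ (A : Type) [Group A], Prop} (h : P G) :
    FreeProd G P :=
  ⟨Unit, fun _ => G, inferInstance, ⟨MonoidHom.toMulEquiv (Monoid.CoprodI.of (M := fun _ : Unit => G) (i := ()))
    (Monoid.CoprodI.lift fun _ => MonoidHom.id G) (by ext; simp)
      (Monoid.CoprodI.ext_hom _ _ fun i => by ext; simp)⟩, fun _ => h⟩

/-- the earlier criterion follows -/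
theorem cores_of {E V : Type} [NormedAddCommGroup E] [NormedSpace ℝ E]
    [NormedAddCommGroup V] [NormedSpace ℝ V] {F : E → ℝ} {g : ℕ} (h : CoresFP V F g) :
    Cores V F g := fun X _ _ _ _ _ _ f₀ T a b c => ⟨(h X f₀ T a b c).1, fun x r b' hr hb =>
  ⟨fun hc => ((h X f₀ T a b c).2 x r b' hr hb).1 (hc.imp id (Or.imp id fun k => ⟨k.1,
      k.2.imp id fun ⟨c, hc, q⟩ => q.imp (fun z => ⟨c, hc, z⟩) fun z =>
        ⟨r, freeProd_self (Or.inl hr), Or.inr ⟨c, hc, by omega⟩⟩⟩)),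
    fun hc => ((h X f₀ T a b c).2 x r b' hr hb).2
      (hc.imp id (Or.imp (fun k => ⟨k.1, fun _ _ a _ _ => a _ k.2⟩) id))⟩⟩

end Pool.Agent.Work.MP_7ba843_gt.Y
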