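import Pool.Agent.Work.MP_7ba843_gt.Y.Qe

/-! Generating tuples of one-relator groups with a quadratic relator are standard. -/

open Set Function

set_option linter.unusedSectionVars false

namespace Pool.Agent.Work.MP_7ba843_gt.Y

variable {Λ P V E F G : Type} [Group F] [Group G] {C : Cx Λ P V E F G} {H : Set F}
  {Y Z : Dat P V E F} [DecidableEq V] [DecidableEq E]

variable (C) in
/-- paths with their labels -/
def LP (Y : Dat P V E F) : V → V → FreeGroup Λ → Prop :=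
  Pth Y.s Y.t (fun e => FreeGroup.of (C.lab e)) fun e => e ∈ Y.S

theorem Hom.lp {π : V → V} {ρ : E → E} (h : Hom C Y Z π ρ) {a b : V} {x : FreeGroup Λ}
    (p : LP C Y a b x) : LP C Z (π a) (π b) x :=
  (Pth.move π (fun _ => 1) (fun e he => by
    obtain ⟨a1, a2, a3, a4⟩ := h.2 e he
    rw [← a3, ← a4, ← a2]
    exact (Pth.edge a1).cast (by simp)) p).cast (by simp)

theorem Hom.lp₀ {π : V → V} {ρ : E → E} (h : Hom C Y Z π ρ) {x : FreeGroup Λ}
    (p : LP C Y C.v₀ C.v₀ x) : LP C Z C.v₀ C.v₀ x := by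
  have := h.lp p
  rwa [h.1] at this

theorem lp_dir {e : E} (he : e ∈ Y.S) (b : Bool) : LP C Y (Y.src b e) (Y.tgt b e)
    (cond b (FreeGroup.of (C.lab e)) (FreeGroup.of (C.lab e))⁻¹) := by
  cases b
  exacts [(Pth.edge he).symm, Pth.edge he]

theorem Hom.rfl' : Hom C Y Y id id := ⟨rfl, fun _ he => ⟨he, rfl, rfl, rfl⟩⟩

variable (fv : ∀ (W : Finset V) (x : G), ∃ y ∉ W, C.h y = x)
  (fe : ∀ (S : Finset E) (a : Λ), ∃ m ∉ S, C.lab m = a)
include fv fe

theorem step (o : Ok C H Y) {x : V} (hx : x ∈ Y.W) (a : Λ) (b : Bool) :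
    ∃ m y, m ∉ Y.S ∧ m ∉ Y.K ∧ C.lab m = a ∧ Ok C H (Y.add m b x y 1) ∧
      (Y.add m b x y 1).rk ≤ Y.rk ∧ C.h y = C.h x * cond b (C.gen a) (C.gen a)⁻¹ := by
  obtain ⟨m, h1, h2⟩ := fe (Y.S ∪ Y.K) a
  obtain ⟨y, h3, h4⟩ := fv Y.W (C.h x * cond b (C.gen a) (C.gen a)⁻¹)
  rw [Finset.notMem_union] at h1
  refine ⟨m, y, h1.1, h1.2, h2, o.add h1.1 h1.2 b hx y (by rw [h2, h4, map_one, mul_inv_cancel]),
    ?_, h4⟩
  simp only [Dat.rk, Dat.add, Finset.card_insert_of_notMem h1.1, Finset.card_insert_of_notMem h3]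
  push_cast
  omega

theorem grow (x : FreeGroup Λ) : ∀ (Y : Dat P V E F) (a : V), Ok C H Y → a ∈ Y.W →
    ∃ Z b, Ok C H Z ∧ Hom C Y Z id id ∧ Z.rk ≤ Y.rk ∧ b ∈ Z.W ∧ LP C Z a b x ∧ Z.Pa a b 1 ∧
      C.h b = C.h a * FreeGroup.lift C.gen x ∧ ∀ c d u, Y.Pa c d u → Z.Pa c d u := by
  have k : ∀ (q : Λ) (b : Bool) (Y : Dat P V E F) (a : V), Ok C H Y → a ∈ Y.W →
      ∃ Z d, Ok C H Z ∧ Hom C Y Z id id ∧ Z.rk ≤ Y.rk ∧ d ∈ Z.W ∧
        LP C Z a d (cond b (FreeGroup.of q) (FreeGroup.of q)⁻¹) ∧ Z.Pa a d 1 ∧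
        C.h d = C.h a * cond b (C.gen q) (C.gen q)⁻¹ ∧ ∀ c d u, Y.Pa c d u → Z.Pa c d u := by
    intro q b Y a o ha
    obtain ⟨m, y, h1, h2, h3, h4, h5, h6⟩ := step fv fe o ha q b
    have := lp_dir (C := C) (Y := Y.add m b a y 1) (Finset.mem_insert_self m _) b
    rw [(add_new ..).1, (add_new ..).2.1, h3] at this
    exact ⟨_, y, h4, add_hom h1 .., h5, Finset.mem_insert_self _ _, this, add_pa' .., h6,
      fun _ _ _ => add_pa h1 h2 _ _ _ _⟩
  induction x using FreeGroup.induction_on with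
  | C1 => exact fun Y a o ha => ⟨Y, a, o, .rfl', le_rfl, ha, .nil, .nil, by simp, fun _ _ _ => id⟩
  | of q => simpa using k q true
  | inv_of q _ => simpa using k q false
  | mul x y hx hy =>
    intro Y a o ha
    obtain ⟨Z, b, a1, a2, a3, a4, a5, a6, a7, a8⟩ := hx Y a o ha
    obtain ⟨X, c, b1, b2, b3, b4, b5, b6, b7, b8⟩ := hy Z b a1 a4
    exact ⟨X, c, b1, a2.comp b2, b3.trans a3, b4, Pth.trans (b2.lp a5) b5,
      ((b8 _ _ _ a6).trans b6).cast (mul_one _), by rw [b7, a7, map_mul, mul_assoc],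
      fun _ _ _ q => b8 _ _ _ (a8 _ _ _ q)⟩

theorem grow2 (o : Ok C H Y) {b : V} (hb : b ∈ Y.W) (l : ℕ → Λ) (ε : ℕ → Bool) (k : ℕ) :
    ∃ (Z : Dat P V E F) (f : ℕ → E) (v : ℕ → V), Ok C H Z ∧ Hom C Y Z id id ∧ Z.rk ≤ Y.rk ∧
      v 0 = b ∧ v k ∈ Z.W ∧ ∀ i < k, f i ∈ Z.S ∧ C.lab (f i) = l i ∧ Z.src (ε i) (f i) = v i ∧
        Z.tgt (ε i) (f i) = v (i + 1) := by
  induction k with
  | zero => exact ⟨Y, fun _ => (fe ∅ (l 0)).choose, fun _ => b, o, .rfl', le_rfl, rfl, hb, by simp⟩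
  | succ k ih =>
    obtain ⟨Z, f, v, a1, a2, a3, a4, a5, a6⟩ := ih
    obtain ⟨m, y, h1, -, h3, h4, h5, -⟩ := step fv fe a1 a5 (l k) (ε k)
    have hh := add_hom (C := C) h1 (ε k) (v k) y (1 : F)
    refine ⟨_, update f k m, update v (k + 1) y, h4, a2.comp hh, h5.trans a3,
      (update_of_ne (by omega) _ _).trans a4, ?_, fun i hi => ?_⟩
    · rw [update_self]
      exact Finset.mem_insert_self _ _
    · rw [update_of_ne hi.ne]
      by_cases q : i = k
      · rw [q, update_self, update_self]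
        exact ⟨Finset.mem_insert_self _ _, h3, (add_new ..).1, (add_new ..).2.1⟩
      · obtain ⟨b1, b2, b3, b4⟩ := a6 i (by omega)
        rw [update_of_ne q, update_of_ne (by omega)]
        exact ⟨Finset.mem_insert_of_mem b1, b2, (hh.src b1 _).1.trans b3, (hh.src b1 _).2.trans b4⟩

theorem petals {κ : Type} [DecidableEq κ] (x : κ → F) (a₀ : Λ)
    (hg : Surjective (FreeGroup.lift C.gen)) (D : Finset κ) :
    ∃ Y : Dat P V E F, Ok C (x '' D) Y ∧ Y.rk ≤ D.card ∧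
      ∀ p ∈ D, ∃ y, LP C Y C.v₀ C.v₀ y ∧ FreeGroup.lift C.gen y = C.φ (x p) := by
  induction D using Finset.induction_on with
  | empty =>
    refine ⟨⟨{C.v₀}, ∅, ∅, fun _ => C.v₀, fun _ => C.v₀, fun _ => 1, ∅⟩,
      ⟨by simp, by simp, by simp, by simp, by simp, by simp, fun v hv => ?_, by simp, by simp,
        fun D h k => absurd (Finset.subset_empty.1 h) k.ne_empty⟩, by simp [Dat.rk], by simp⟩
    rw [Finset.mem_singleton.1 hv]
    exact ⟨1, .nil⟩
  | insert p D hp ih =>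
    obtain ⟨Y, o, h1, h2⟩ := ih
    obtain ⟨y, hy⟩ := hg (C.φ (x p) * (C.gen a₀)⁻¹)
    obtain ⟨Z, b, a1, a2, a3, a4, a5, a6, a7, -⟩ := grow fv fe y Y _ o o.v0
    obtain ⟨m, m1, m2⟩ := fe (Z.S ∪ Z.K) a₀
    rw [Finset.notMem_union] at m1
    have o' := a1.add m1.1 m1.2 true a4 C.v₀ (z := x p) (by
      rw [a7, hy, C.h₀, m2]
      simp)
    have hh := add_hom (C := C) m1.1 true b C.v₀ (x p)
    refine ⟨_, ⟨o'.v0, o'.ends, o'.labs, o'.kil, o'.disj, ?_, o'.conn, o'.faces, o'.surf, o'.nc⟩,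
      ?_, fun q hq => ?_⟩
    · rintro _ ⟨q, hq, rfl⟩
      rcases Finset.mem_insert.1 hq with rfl | hq
      · exact ((add_pa m1.1 m1.2 _ _ _ _ a6).trans (add_pa' ..)).cast (one_mul _)
      · exact o'.loops _ ⟨q, hq, rfl⟩
    · simp only [Dat.rk, Dat.add, Finset.card_insert_of_notMem m1.1, Finset.card_insert_of_notMem hp,
        Finset.insert_eq_of_mem a1.v0] at a3 h1 ⊢
      push_cast
      omega
    · rcases Finset.mem_insert.1 hq with rfl | hq
      · have := lp_dir (C := C) (Y := Z.add m true b C.v₀ (x q)) (Finset.mem_insert_self m _) true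
        rw [(add_new ..).1, (add_new ..).2.1, m2] at this
        exact ⟨_, Pth.trans (hh.lp a5) this, by simp [hy]⟩
      · exact (h2 q hq).imp fun _ k => ⟨(a2.comp hh).lp₀ k.1, k.2⟩

omit fe in
theorem extract [Fintype Λ] (o : Ok C H Y) (im : Imm C Y)
    (hl : ∀ a, LP C Y C.v₀ C.v₀ (FreeGroup.of a)) : ∃ d : Λ → E, (∀ a, C.φ (Y.ψ (d a)) = C.gen a) ∧
      (Fintype.card Λ + Y.K.card : ℤ) ≤ Y.rk ∧
      H ⊆ Subgroup.closure (range (Y.ψ ∘ d) ∪ Y.ψ '' Y.K) := by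
  classical
  obtain ⟨y, hy, -⟩ := fv Y.W 1
  have k1 : ∀ a, ∃ p : Equiv.Perm V, (∀ e ∈ Y.S, C.lab e = a → p (Y.s e) = Y.t e) ∧
      ((¬ ∃ e ∈ Y.S, C.lab e = a ∧ Y.s e = C.v₀) → p C.v₀ = y) := fun a => by
    obtain ⟨p, hp⟩ := Equiv.Perm.exists_extending_pair
      (α := {e : Y.S // C.lab e = a} ⊕ {_u : Unit // ¬ ∃ e ∈ Y.S, C.lab e = a ∧ Y.s e = C.v₀})
      (f := Sum.elim (fun e => Y.s e.1) fun _ => C.v₀) (g := Sum.elim (fun e => Y.t e.1) fun _ => y)
      (by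
        rintro (e | e) (e' | e') h
        · exact congrArg _ (Subtype.ext (Subtype.ext
            (im _ e.1.2 _ e'.1.2 (e.2.trans e'.2.symm) true h)))
        · exact absurd ⟨_, e.1.2, e.2, h⟩ e'.2
        · exact absurd ⟨_, e'.1.2, e'.2, h.symm⟩ e.2
        · exact congrArg _ (Subsingleton.elim _ _))
      (by
        rintro (e | e) (e' | e') h
        · exact congrArg _ (Subtype.ext (Subtype.ext
            (im _ e.1.2 _ e'.1.2 (e.2.trans e'.2.symm) false h)))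
        · exact absurd ((show Y.t e.1 = y from h) ▸ (o.ends _ e.1.2).2) hy
        · exact absurd ((show y = Y.t e'.1 from h) ▸ (o.ends _ e'.1.2).2) hy
        · exact congrArg _ (Subsingleton.elim _ _))
    exact ⟨p, fun e he h => hp (Sum.inl ⟨⟨e, he⟩, h⟩), fun h => hp (Sum.inr ⟨(), h⟩)⟩
  choose p hp hq using k1
  have k2 : ∀ {a b x}, LP C Y a b x → FreeGroup.lift (fun q => (p q)⁻¹) x b = a := by
    intro a b x h
    induction h with
    | nil => simp
    | fwd e he _ ih => simp [← hp _ e he rfl, ih]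
    | bwd e he _ ih => simp [hp _ e he rfl, ih]
  have k3 : ∀ a, ∃ e ∈ Y.S, C.lab e = a ∧ Y.s e = C.v₀ ∧ Y.t e = C.v₀ := fun a => by
    have h := k2 (hl a)
    rw [FreeGroup.lift_apply_of, Equiv.Perm.inv_eq_iff_eq] at h
    by_cases q : ∃ e ∈ Y.S, C.lab e = a ∧ Y.s e = C.v₀
    · obtain ⟨e, h1, h2, h3⟩ := q
      exact ⟨e, h1, h2, h3, by rw [← hp a e h1 h2, h3, ← h]⟩
    · exact absurd ((h.trans (hq a q)) ▸ o.v0) hy
  choose d d1 d2 d3 d4 using k3
  have k4 : ∀ e ∈ Y.S, Y.s e = C.v₀ ∨ Y.t e = C.v₀ → e = d (C.lab e) := fun e he h =>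
    h.elim (fun h => im _ he _ (d1 _) (d2 _).symm true (h.trans (d3 _).symm))
      fun h => im _ he _ (d1 _) (d2 _).symm false (h.trans (d4 _).symm)
  have k5 : ∀ v ∈ Y.W, v = C.v₀ := fun v hv => by
    obtain ⟨x, h⟩ := o.conn v hv
    clear hv
    induction h with
    | nil => rfl
    | fwd e he _ ih =>
      exact he.elim (fun he => (k4 e he (Or.inl ih)).symm ▸ d4 _) fun he => (o.kil e he).2.1
    | bwd e he _ ih =>
      exact he.elim (fun he => (k4 e he (Or.inr ih)).symm ▸ d3 _) fun he => (o.kil e he).1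
  have k6 : ∀ e ∈ Y.S, e = d (C.lab e) := fun e he => k4 e he (Or.inl (k5 _ (o.ends e he).1))
  have k7 : Y.Φ = ∅ := Finset.not_nonempty_iff_eq_empty.1 fun h => by
    obtain ⟨f, hf, j, hj⟩ := o.nc _ (Finset.Subset.refl _) h
    have a := (o.faces f hf).1
    exact hj f hf (by rw [k6 _ (a _).1, k6 _ (a j).1, (a _).2.1, (a _).2.1, C.st4])
  refine ⟨d, fun a => by rw [o.labs _ (d1 a), d2, d3, d4, C.h₀]; simp, ?_, fun x hx => ?_⟩
  · have a := Finset.card_le_card_of_injOn (s := Finset.univ) (t := Y.S) d (fun a _ => d1 a)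
      fun a _ b _ e => (d2 a).symm.trans ((congrArg C.lab e).trans (d2 b))
    have b : Y.W.card ≤ 1 := Finset.card_le_one.2 fun a ha b hb => (k5 a ha).trans (k5 b hb).symm
    rw [Finset.card_univ] at a
    simp only [Dat.rk, k7, Finset.card_empty]
    omega
  · refine Subgroup.closure_mono ?_ (o.loops x hx).clo
    rintro _ ⟨e, he | he, rfl⟩
    exacts [Or.inl ⟨_, congrArg Y.ψ (k6 e he).symm⟩, Or.inr ⟨e, he, rfl⟩]

omit fv fe

/-- partial products -/
def pp {m : ℕ} (x : Fin m → F) (k : ℕ) : F := ((List.ofFn x).take k).prod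

theorem pp_succ {m : ℕ} (x : Fin m → F) (i : Fin m) : pp x (i + 1) = pp x i * x i := by
  rw [pp, List.prod_take_succ _ _ (by simp), List.getElem_ofFn]
  rfl

theorem pp_all {m : ℕ} (x : Fin m → F) : pp x m = (List.ofFn x).prod := by
  rw [pp, List.take_of_length_le (by simp)]

theorem relator {m : ℕ} {C : Cx Λ (Fin (m + 1)) V E F G} (hσ : C.σ = finRotate (m + 1))
    (fv : ∀ (W : Finset V) (x : G), ∃ y ∉ W, C.h y = x)
    (fe : ∀ (S : Finset E) (a : Λ), ∃ m ∉ S, C.lab m = a) {x : FreeGroup Λ}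
    (hx : x ∈ Subgroup.normalClosure {(List.ofFn fun i =>
      cond (C.ε i) (FreeGroup.of (C.l i)) (FreeGroup.of (C.l i))⁻¹).prod}) :
    ∀ Y, Ok C H Y → ∃ Z π ρ, Ok C H Z ∧ Hom C Y Z π ρ ∧ Z.rk ≤ Y.rk ∧ LP C Z C.v₀ C.v₀ x := by
  induction hx using Subgroup.closure_induction with
  | one => exact fun Y o => ⟨Y, id, id, o, .rfl', le_rfl, .nil⟩
  | mul x y _ _ hx hy =>
    intro Y o
    obtain ⟨Z, _, _, a1, a2, a3, a4⟩ := hx Y o
    obtain ⟨X, _, _, b1, b2, b3, b4⟩ := hy Z a1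
    exact ⟨X, _, _, b1, a2.comp b2, b3.trans a3, Pth.trans (b2.lp₀ a4) b4⟩
  | inv x _ hx =>
    intro Y o
    obtain ⟨Z, _, _, a1, a2, a3, a4⟩ := hx Y o
    exact ⟨Z, _, _, a1, a2, a3, Pth.symm a4⟩
  | mem x hx =>
    intro Y o
    obtain ⟨_, rfl, hx⟩ := Group.mem_conjugatesOfSet_iff.1 hx
    obtain ⟨c, rfl⟩ := isConj_iff.1 hx
    obtain ⟨Y₁, b, a1, a2, a3, a4, a5, -⟩ := grow fv fe c Y _ o o.v0
    obtain ⟨Y₂, f, v, b1, b2, b3, b4, -, b6⟩ := grow2 fv fe a1 a4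
      (fun i => C.l (Fin.ofNat _ i)) (fun i => C.ε (Fin.ofNat _ i)) m
    obtain ⟨Y₃, π, ρ, c1, c2, c3, -, -, c6⟩ := imm_ex b1
    obtain ⟨n, n1, n2⟩ := fe (Y₃.S ∪ Y₃.K) (C.l (Fin.last m))
    rw [Finset.notMem_union] at n1
    have k : ∀ i : Fin (m + 1), i ≠ Fin.last m → ρ (f i) ∈ Y₃.S ∧ C.lab (ρ (f i)) = C.l i ∧
        Y₃.src (C.ε i) (ρ (f i)) = π (v i) ∧ Y₃.tgt (C.ε i) (ρ (f i)) = π (v (C.σ i)) := by
      intro i hi
      have q := b6 i (Fin.val_lt_last hi)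
      simp only [Fin.ofNat_val_eq_self] at q
      rw [hσ, coe_finRotate_of_ne_last hi]
      exact ⟨(c3.2 _ q.1).1, (c3.2 _ q.1).2.1.trans q.2.1,
        (c3.src q.1 _).1.trans (congrArg π q.2.2.1), (c3.src q.1 _).2.trans (congrArg π q.2.2.2)⟩
    obtain ⟨X, π', ρ', e, d1, -, d3, d4, d5, d6, d7, -, -, d10⟩ := reexp c1 c2
      (fun _ h _ => imm_ex h) (f := fun i => ρ (f i)) (v := fun i => π (v i)) k n1.1 n1.2 n2
    have p : ∀ i : Fin (m + 1), LP C Y₃ (π b) (π (v i)) (pp (fun i =>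
        cond (C.ε i) (FreeGroup.of (C.l i)) (FreeGroup.of (C.l i))⁻¹) i) := fun i => by
      induction i using Fin.induction with
      | zero => exact b4 ▸ Pth.nil
      | succ i ih =>
        obtain ⟨q1, q2, q3, q4⟩ := k _ (Fin.castSucc_ne_last i)
        have := lp_dir (C := C) q1 (C.ε i.castSucc)
        rw [q2, q3, q4, hσ, coe_finRotate_of_ne_last (Fin.castSucc_ne_last i)] at this
        exact (Pth.trans ih this).cast (pp_succ _ i.castSucc).symm
    have q := lp_dir (C := C) d4 (C.ε (Fin.last m))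
    rw [d5, d6, d7, hσ, finRotate_last, Fin.val_zero, b4] at q
    have hh := (b2.comp c3).comp d3
    have r := hh.lp a5
    rw [hh.1] at r
    refine ⟨X, _, _, d1, a2.comp hh, d10.trans (c6.trans (b3.trans a3)),
      Pth.trans (Pth.trans r ((Pth.trans (d3.lp (p (Fin.last m))) q).cast ?_)) (Pth.symm r)⟩
    exact (pp_succ _ (Fin.last m)).symm.trans (pp_all _)

theorem quad_core {m n g : ℕ} {C : Cx (Fin n) (Fin (m + 1)) V E (FreeGroup (Fin g)) G}
    (hσ : C.σ = finRotate (m + 1)) (fv : ∀ (W : Finset V) (x : G), ∃ y ∉ W, C.h y = x)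
    (fe : ∀ (S : Finset E) (a : Fin n), ∃ m ∉ S, C.lab m = a) (hφ : Surjective C.φ)
    (hg : Surjective (FreeGroup.lift C.gen))
    (hk : ∀ x, FreeGroup.lift C.gen x = 1 → x ∈ Subgroup.normalClosure {(List.ofFn fun i =>
      cond (C.ε i) (FreeGroup.of (C.l i)) (FreeGroup.of (C.l i))⁻¹).prod}) :
    ∃ (u : Fin g → FreeGroup (Fin g)) (τ : Fin n → Fin g), Subgroup.closure (range u) = ⊤ ∧
      Injective τ ∧ (∀ a, C.φ (u (τ a)) = C.gen a) ∧ ∀ p, p ∉ range τ → C.φ (u p) = 1 := by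
  obtain ⟨Y, o, h1, h2⟩ := petals fv fe (FreeGroup.of : Fin g → FreeGroup (Fin g)) (C.l 0) hg
    Finset.univ
  rw [Finset.card_fin] at h1
  choose y y1 y2 using fun p => h2 p (Finset.mem_univ p)
  have k1 : ∀ z, LP C Y C.v₀ C.v₀ (FreeGroup.lift y z) ∧
      FreeGroup.lift C.gen (FreeGroup.lift y z) = C.φ z := fun z => by
    induction z using FreeGroup.induction_on with
    | C1 => exact ⟨Pth.nil.cast (map_one _).symm, by simp⟩
    | of q => simpa using ⟨y1 q, y2 q⟩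
    | inv_of q h => exact ⟨(Pth.symm h.1).cast (map_inv _ _).symm, by
        rw [map_inv, map_inv, h.2, map_inv]⟩
    | mul a b ha hb => exact ⟨(Pth.trans ha.1 hb.1).cast (map_mul _ _ _).symm, by
        rw [map_mul, map_mul, ha.2, hb.2, map_mul]⟩
  have k2 : ∀ D : Finset (Fin n), ∃ Z π ρ, Ok C (FreeGroup.of '' (Finset.univ : Finset (Fin g))) Z ∧
      Hom C Y Z π ρ ∧ Z.rk ≤ Y.rk ∧ ∀ a ∈ D, LP C Z C.v₀ C.v₀ (FreeGroup.of a) := fun D => by
    induction D using Finset.induction_on with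
    | empty => exact ⟨Y, id, id, o, .rfl', le_rfl, by simp⟩
    | insert a D _ ih =>
      obtain ⟨Z, _, _, a1, a2, a3, a4⟩ := ih
      obtain ⟨z, hz⟩ := hφ (C.gen a)
      obtain ⟨X, _, _, b1, b2, b3, b4⟩ := relator hσ fv fe
        (hk (FreeGroup.of a * (FreeGroup.lift y z)⁻¹) (by
          rw [map_mul, map_inv, (k1 z).2, hz, FreeGroup.lift_apply_of, mul_inv_cancel])) Z a1
      refine ⟨X, _, _, b1, a2.comp b2, b3.trans a3, fun q hq => ?_⟩
      rcases Finset.mem_insert.1 hq with rfl | hq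
      · exact (Pth.trans b4 ((a2.comp b2).lp₀ (k1 z).1)).cast (by simp)
      · exact b2.lp₀ (a4 q hq)
  obtain ⟨Z, _, _, a1, -, a3, a4⟩ := k2 Finset.univ
  obtain ⟨X, _, _, b1, b2, b3, -, -, b6⟩ := imm_ex a1
  obtain ⟨d, d1, d2, d3⟩ := extract fv b1 b2 fun a => b3.lp₀ (a4 a (Finset.mem_univ a))
  obtain ⟨τ⟩ : Nonempty (Fin n ⊕ X.K ↪ Fin g) := Function.Embedding.nonempty_of_card_le (by
    rw [Fintype.card_sum, Fintype.card_coe, Fintype.card_fin g]
    omega)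
  refine ⟨extend τ (Sum.elim (X.ψ ∘ d) fun e => X.ψ e) 1, τ ∘ Sum.inl, top_unique ?_,
    τ.injective.comp Sum.inl_injective, fun a => ?_, fun p hp => ?_⟩
  · rw [← FreeGroup.closure_range_of, Subgroup.closure_le]
    rintro _ ⟨p, rfl⟩
    refine Subgroup.closure_mono ?_ (d3 ⟨p, by simp, rfl⟩)
    rintro _ (⟨a, rfl⟩ | ⟨e, he, rfl⟩)
    exacts [⟨_, τ.injective.extend_apply _ _ (Sum.inl a)⟩,
      ⟨_, τ.injective.extend_apply _ _ (Sum.inr ⟨e, he⟩)⟩]
  · rw [comp_apply, τ.injective.extend_apply]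
    exact d1 a
  · by_cases q : ∃ a, τ a = p
    · obtain ⟨a | e, rfl⟩ := q
      · exact absurd ⟨a, rfl⟩ hp
      · rw [τ.injective.extend_apply]
        exact (b1.kil _ e.2).2.2
    · rw [extend_apply' _ _ _ q]
      exact map_one _

theorem pot {m : ℕ} (x : Fin (m + 1) → F) (j : Fin (m + 1)) :
    ∃ θ : Fin (m + 1) → F, ∀ i, i ≠ j → θ (finRotate (m + 1) i) = θ i * x i := by
  refine ⟨fun i => (if i ≤ j then pp x (m + 1) else 1) * pp x i, fun i hi => ?_⟩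
  by_cases q : i = Fin.last m
  · subst q
    beta_reduce
    rw [finRotate_last, if_pos (Fin.zero_le j), if_neg fun h => hi (le_antisymm h (Fin.le_last j)),
      one_mul, ← pp_succ]
    simp [pp]
  · have := coe_finRotate_of_ne_last q
    have k : finRotate (m + 1) i ≤ j ↔ i ≤ j := by
      have : i.1 ≠ j.1 := Fin.val_ne_of_ne hi
      simp only [Fin.le_def]
      omega
    simp only [k, this, pp_succ, mul_assoc]

theorem quad {m n g : ℕ} (l : Fin (m + 1) → Fin n × Bool)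
    (hl : ∀ a, (Finset.univ.filter fun i => (l i).1 = a).card = 2)
    (φ : FreeGroup (Fin g) →* PresentedGroup {FreeGroup.mk (List.ofFn l)}) (hφ : Surjective φ) :
    ∃ (u : Fin g → FreeGroup (Fin g)) (τ : Fin n → Fin g), Subgroup.closure (range u) = ⊤ ∧
      Injective τ ∧ (∀ a, φ (u (τ a)) = PresentedGroup.of a) ∧ ∀ p, p ∉ range τ → φ (u p) = 1 := by
  classical
  have st : ∀ j, ∃ k, k ≠ j ∧ (l k).1 = (l j).1 ∧ ∀ i, (l i).1 = (l j).1 → i = j ∨ i = k := fun j => by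
    obtain ⟨x, y, h1, h2⟩ := Finset.card_eq_two.1 (hl (l j).1)
    have h3 : ∀ i, (l i).1 = (l j).1 ↔ i = x ∨ i = y := fun i => by
      simpa using Finset.ext_iff.1 h2 i
    rcases (h3 j).1 rfl with rfl | rfl
    · exact ⟨y, h1.symm, (h3 y).2 (Or.inr rfl), fun i h => (h3 i).1 h⟩
    · exact ⟨x, h1, (h3 x).2 (Or.inl rfl), fun i h => ((h3 i).1 h).symm⟩
  choose star s1 s2 s3 using st
  have w : FreeGroup.mk (List.ofFn l) = (List.ofFn fun i =>
      cond (l i).2 (FreeGroup.of (l i).1) (FreeGroup.of (l i).1)⁻¹).prod := by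
    rw [← FreeGroup.lift_of_apply (FreeGroup.mk _), FreeGroup.lift_mk, List.map_ofFn]
    rfl
  have e : FreeGroup.lift (PresentedGroup.of (rels := {FreeGroup.mk (List.ofFn l)})) =
      PresentedGroup.mk _ := FreeGroup.ext_hom _ _ fun _ => FreeGroup.lift_apply_of
  have fr : ∀ {A : Type} (W : Finset (ℕ × A)) (x : A), ∃ y ∉ W, y.2 = x := fun W x => by
    obtain ⟨N, hN⟩ := Infinite.exists_notMem_finset (W.image Prod.fst)
    exact ⟨(N, x), fun h => hN (Finset.mem_image_of_mem _ h), rfl⟩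
  refine quad_core (C := ⟨φ, PresentedGroup.of, (Prod.snd : ℕ × _ → _), (Prod.snd : ℕ × _ → _),
    (0, 1), fun i => (l i).1, fun i => (l i).2, finRotate (m + 1), star, rfl, s1,
    fun j => (s3 (star j) j (s2 j).symm).elim (fun h => absurd h.symm (s1 j)) Eq.symm,
    fun i j => s3 j i, s2, fun Q j h0 hs i => ?_, pot, ?_⟩) rfl fr fr hφ ?_ fun x hx => ?_
  · have : ∀ d : Fin (m + 1), Q (j + d) := fun d => by
      induction d using Fin.induction with
      | zero => rwa [add_zero]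
      | succ d ih =>
        have := hs _ ih
        rwa [finRotate_apply, add_assoc, Fin.coeSucc_eq_succ] at this
    simpa using this (i - j)
  · let c : Fin (m + 1) → PresentedGroup {FreeGroup.mk (List.ofFn l)} := fun i =>
      cond (l i).2 (PresentedGroup.of (l i).1) (PresentedGroup.of (l i).1)⁻¹
    refine ⟨fun i => pp c i, fun i => ?_⟩
    by_cases q : i = Fin.last m
    · have : (List.ofFn c).prod = 1 := by
        have := PresentedGroup.one_of_mem (rels := {FreeGroup.mk (List.ofFn l)}) rfl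
        rwa [← e, FreeGroup.lift_mk, List.map_ofFn] at this
      subst q
      exact ((pp_succ c (Fin.last m)).symm.trans ((pp_all c).trans this)).symm ▸ by simp [pp]
    · exact (congrArg (pp c) (coe_finRotate_of_ne_last q)).trans (pp_succ c i)
  · intro x
    obtain ⟨z, hz⟩ := PresentedGroup.mk_surjective _ x
    exact ⟨z, (DFunLike.congr_fun e z).trans hz⟩
  · rw [← w]
    exact PresentedGroup.mk_eq_one_iff.1 (e ▸ hx)

end Pool.Agent.Work.MP_7ba843_gt.Y
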