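import Pool.Agent.Work.MP_7ba843_gt.C.Stm

/-! The criterion for cores of trisections, with free products. -/

open Set Topology
open scoped Manifold ContDiff

namespace Pool.Agent.Work.MP_7ba843_gt.S

open Pool.Agent.Work.MP_7ba843_gt Pool.Agent.Work.MP_7ba843_gt.N

/-- The group `G` is a free product of groups that have the property `P`. -/
def FreeProd (G : Type) [Group G] (P : ∀ (A : Type) [Group A], Prop) : Prop :=
  ∃ (ι : Type) (A : ι → Type) (_ : ∀ i, Group (A i)),
    Nonempty (G ≃* Monoid.CoprodI A) ∧ ∀ i, P (A i)

/-- The group `A` has a presentation with one relator, a word in which every generator occurs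
exactly twice (with exponent `1` or `-1`). Fundamental groups of closed surfaces other than the
sphere are of this kind, and so is the infinite cyclic group. -/
def Quad (A : Type) [Group A] : Prop :=
  ∃ (n m : ℕ) (l : Fin (m + 1) → Fin n × Bool),
    (∀ a, (Finset.univ.filter fun i => (l i).1 = a).card = 2) ∧
      Nonempty (A ≃* PresentedGroup {FreeGroup.mk (List.ofFn l)})

/-- The least class of groups that contains the groups of the kind `Quad` and the groups whose
maximal subgroups are normal, and is closed under free products and under extensions with a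
finite solvable kernel. -/
def Tame (G : Type) [Group G] : Prop :=
  ∀ P : ∀ (A : Type) [Group A], Prop, (∀ (A : Type) [Group A], Quad A → P A) →
    (∀ (A : Type) [Group A], (∀ M : Subgroup A, IsCoatom M → M.Normal) → P A) →
    (∀ (A : Type) [Group A], FreeProd A P → P A) →
    (∀ (A B : Type) [Group A] [Group B] (f : A →* B), Function.Surjective f → Finite f.ker →
      Group.IsSolvable f.ker → P B → P A) → P G

variable {E : Type} [NormedAddCommGroup E] [NormedSpace ℝ E]
  (V : Type) [NormedAddCommGroup V] [NormedSpace ℝ V]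

/-- The criterion, for the model `{0 ≤ F}` of the handlebody of genus `g` and closed connected
smooth manifolds `X` modelled on `V`. Let `T` be a trisection of `X` whose handlebody `T 0 ∩ T 1`
is the image of the smooth embedding `f₀` and whose core is the image of `{F = 0}`.
(A) If the smooth embedding `f` has an equivalent map on fundamental groups, a diffeomorphism `ψ`
of `X` carries the handlebody to the image of `f`, and `T` to a trisection with core `f {F = 0}`.
Let the fundamental group `G` of `X` have `r` generators and let `b` be the first Betti number.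
(B) If `T 0` has genus at most `g - r`, or `2 r + b ≤ g + 1`, or `r` is least and one of: `b = 0`;
the Euler characteristic `c` has `0 ≤ c`; `G` is a free product (one factor allowed) of groups
each of which has `p` generators or, for `0 < p`, is `Tame`, and `T 0` has genus at most `g - p`,
or `2 + p ≤ 2 r + c`, or `2 p < g + r + c`; then the cores of the images of `T` under
diffeomorphisms are exactly the boundaries of the smoothly embedded handlebodies whose map on
fundamental groups is a composite of surjections through the free group of rank `r`.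
(C) If `G` is free of rank `r`, or `r < g` and `G` is `Tame`, or `G` is finite with
`r + log₂ |G| ≤ g`, then the boundary of a smoothly embedded handlebody is such a core as soon as
it carries the fundamental group of `X`. -/
def CoresFP (F : E → ℝ) (g : ℕ) : Prop :=
  ∀ (X : Type) [TopologicalSpace X] [ChartedSpace V X] [IsManifold 𝓘(ℝ, V) ∞ X] [T2Space X]
    [CompactSpace X] [ConnectedSpace X] (f₀ : C({x | 0 ≤ F x}, X)) (T : Fin 3 → Set X),
    SmEmb V f₀ → Trisection g (f₀ '' {x | F x = 0}) T → T 0 ∩ T 1 = range f₀ →
    (∀ f : C({x | 0 ≤ F x}, X), SmEmb V f → PiEquiv f₀ f →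
      ∃ ψ : X ≃ₘ⟮𝓘(ℝ, V), 𝓘(ℝ, V)⟯ X, ψ '' range f₀ = range f ∧
        Trisection g (f '' {x | F x = 0}) fun i => ψ '' T i) ∧
    ∀ (x : X) (r b : ℕ), Gens (FundamentalGroup X x) r →
      b = Module.finrank ℤ (Additive (FundamentalGroup X x) →+ ℤ) →
      ((∃ k, Nonempty (T 0 ≃ₜ Th 2 k) ∧ r + k ≤ g) ∨ 2 * r + b ≤ g + 1 ∨
          ((∀ n, Gens (FundamentalGroup X x) n → r ≤ n) ∧
            (b = 0 ∨ (∃ c : ℤ, HasEulerChar X c ∧ 0 ≤ c) ∨
              ∃ p : ℕ, FreeProd (FundamentalGroup X x)
                  (fun A _ => Gens A p ∨ (0 < p ∧ Tame A)) ∧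
                ((∃ k, Nonempty (T 0 ≃ₜ Th 2 k) ∧ p + k ≤ g) ∨
                  ∃ c : ℤ, HasEulerChar X c ∧ (2 + p ≤ 2 * r + c ∨ 2 * p < g + r + c)))) →
        ∀ S : Set X, (∃ ψ : X ≃ₘ⟮𝓘(ℝ, V), 𝓘(ℝ, V)⟯ X, Trisection g S fun i => ψ '' T i) ↔
          ∃ f : C({x | 0 ≤ F x}, X), SmEmb V f ∧ f '' {x | F x = 0} = S ∧ PiFact f r) ∧
      (Nonempty (FundamentalGroup X x ≃* FreeGroup (Fin r)) ∨
          (r < g ∧ Tame (FundamentalGroup X x)) ∨
          (Finite (FundamentalGroup X x) ∧ r + Nat.log 2 (Nat.card (FundamentalGroup X x)) ≤ g) →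
        ∀ (f : C({x | 0 ≤ F x}, X)) (S : Set X) (y : S), SmEmb V f → f '' {x | F x = 0} = S →
          Function.Surjective
            (FundamentalGroup.map (⟨Subtype.val, continuous_subtype_val⟩ : C(S, X)) y) →
          ∃ ψ : X ≃ₘ⟮𝓘(ℝ, V), 𝓘(ℝ, V)⟯ X, Trisection g S fun i => ψ '' T i)

end Pool.Agent.Work.MP_7ba843_gt.S
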