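import Pool.Agent.Work.MP_7ba843_gt.Y.Sol
import Pool.Agent.Work.MP_7ba843_gt.Y.Qf
import Pool.Agent.Work.MP_7ba843_gt.Y.Stm

/-! Nielsen classes of generating tuples of free products. -/

open Set Function Monoid

namespace Pool.Agent.Work.MP_7ba843_gt.Y

open Pool.Agent.Work.MP_7ba843_gt.C Pool.Agent.Work.MP_7ba843_gt.X Pool.Agent.Work.MP_7ba843_gt.S

theorem NE_sub {κ μ G : Type} [Group G] [DecidableEq κ] [DecidableEq μ] {f : κ → μ}
    (hf : Injective f) (v : μ → G) {u : κ → G} (h : NE (v ∘ f) u) :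
    ∃ w, NE v w ∧ w ∘ f = u ∧ ∀ p, p ∉ range f → w p = v p := by
  induction h with
  | refl => exact ⟨v, .refl, rfl, fun _ _ => rfl⟩
  | tail _ m ih =>
    obtain ⟨w, h1, rfl, h3⟩ := ih
    rcases m with ⟨i, rfl⟩ | ⟨i, j, k, rfl⟩
    · exact ⟨_, h1.tail (Or.inl ⟨f i, rfl⟩), update_comp_eq_of_injective _ hf _ _,
        fun p hp => (update_of_ne (fun e => hp ⟨i, e.symm⟩) _ _).trans (h3 p hp)⟩
    · exact ⟨_, h1.tail (Or.inr ⟨f i, f j, hf.ne k, rfl⟩), update_comp_eq_of_injective _ hf _ _,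
        fun p hp => (update_of_ne (fun e => hp ⟨i, e.symm⟩) _ _).trans (h3 p hp)⟩

theorem gens_card {κ B : Type} [Group B] [Fintype κ] {t : κ → B}
    (h : Subgroup.closure (range t) = ⊤) : Gens B (Fintype.card κ) :=
  ⟨t ∘ (Fintype.equivFin κ).symm, by rwa [(Fintype.equivFin κ).symm.surjective.range_comp]⟩

theorem gen_sub {κ B : Type} [Group B] {t : κ → B} (h : Subgroup.closure (range t) = ⊤)
    (Q : κ → Prop) (hQ : ∀ p, ¬ Q p → t p = 1) :
    Subgroup.closure (range fun p : {p // Q p} => t p) = ⊤ := by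
  refine top_unique (h.ge.trans ((Subgroup.closure_le _).2 ?_))
  rintro _ ⟨p, rfl⟩
  by_cases q : Q p
  · exact Subgroup.subset_closure ⟨⟨p, q⟩, rfl⟩
  · rw [hQ p q]
    exact one_mem _

/-- the tuple `t` is equivalent to `a` extended by `1` -/
def Red {κ B : Type} [Group B] [DecidableEq κ] {r : ℕ} (a : Fin r → B) (t : κ → B) : Prop :=
  ∃ (τ : Fin r → κ) (u : κ → B), Injective τ ∧ NE t u ∧ (∀ j, u (τ j) = a j) ∧
    ∀ p, p ∉ range τ → u p = 1

open Classical in
/-- generating tuples with `ρ` trivial entries are equivalent to `a` extended by `1` -/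
def Std {B : Type} [Group B] {r : ℕ} (a : Fin r → B) (ρ : ℕ) : Prop :=
  ∀ (κ : Type) [Fintype κ] [DecidableEq κ] (t : κ → B), Subgroup.closure (range t) = ⊤ →
    ρ ≤ (Finset.univ.filter fun p => t p = 1).card → Red a t

theorem std_fill {B : Type} [Group B] {r ρ : ℕ} {a : Fin r → B}
    (ha : Subgroup.closure (range a) = ⊤) (h : r ≤ ρ) : Std a ρ := by
  classical
  intro κ _ _ t ht hz
  obtain ⟨f⟩ : Nonempty (Fin r ↪ (Finset.univ.filter fun p => t p = 1)) :=
    Function.Embedding.nonempty_of_card_le (by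
      rw [Fintype.card_fin, Fintype.card_coe]
      convert h.trans hz)
  have hτ : Injective fun j => (f j).1 := Subtype.val_injective.comp f.injective
  have h1 : ∀ j, t (f j).1 = 1 := fun j => (Finset.mem_filter.1 (f j).2).2
  refine ⟨_, extend (fun j => (f j).1) a 1, hτ, NE_trans (v := extend (fun j => (f j).1) a t)
    (AlgB_fill (gen_sub ht (fun p => t p ≠ 1) fun p => not_not.1) (range fun j => (f j).1)ᶜ
      (fun p hp => (extend_apply' _ _ _ hp).symm) fun p => ⟨p.1, ?_, extend_apply' _ _ _ ?_⟩)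
    (AlgB_fill ha (range fun j => (f j).1) ?_ fun j => ⟨_, ⟨j, rfl⟩, hτ.extend_apply _ _ j⟩),
    hτ.extend_apply _ _, fun p hp => extend_apply' _ _ _ hp⟩
  · rintro ⟨j, e⟩
    exact p.2 (e ▸ h1 j)
  · rintro ⟨j, e⟩
    exact p.2 (e ▸ h1 j)
  · rintro _ ⟨j, rfl⟩
    rw [hτ.extend_apply, hτ.extend_apply]

theorem std_red {B : Type} [Group B] {r ρ : ℕ} {a : Fin r → B} (hρ : 0 < ρ)
    (hB : ∀ (κ : Type) [Fintype κ] [DecidableEq κ] (t : κ → B), Subgroup.closure (range t) = ⊤ →
      r < Fintype.card κ → Red a t) (hm : ∀ n, Gens B n → r ≤ n) : Std a ρ := by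
  classical
  intro κ _ _ t ht hz
  refine hB κ t ht ?_
  have h1 := hm _ (gens_card (gen_sub ht (fun p => ¬ t p = 1) fun p => not_not.1))
  rw [Fintype.card_subtype] at h1
  have h2 := Finset.card_filter_add_card_filter_not (s := Finset.univ) fun p => t p = 1
  rw [Finset.card_univ] at h2
  have h3 : ρ ≤ (Finset.univ.filter fun p => t p = 1).card := by convert hz
  omega

theorem quad_red {B : Type} [Group B] (h : Quad B) : ∃ (r : ℕ) (a : Fin r → B),
    ∀ (κ : Type) [Fintype κ] [DecidableEq κ] (t : κ → B), Subgroup.closure (range t) = ⊤ →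
      Red a t := by
  obtain ⟨n, m, l, hl, ⟨e⟩⟩ := h
  refine ⟨n, fun j => e.symm (PresentedGroup.of j), fun κ _ _ t ht => ?_⟩
  let q := (Fintype.equivFin κ).symm
  obtain ⟨u, τ, h1, h2, h3, h4⟩ := quad l hl (e.toMonoidHom.comp (FreeGroup.lift (t ∘ q)))
    (e.surjective.comp (by
      rw [← MonoidHom.range_eq_top, FreeGroup.range_lift_eq_closure, q.surjective.range_comp, ht]))
  have := (one_free _ _ _ _ (FreeGroup.closure_range_of _) h1).map (FreeGroup.lift (t ∘ q))
  rw [show FreeGroup.lift (t ∘ q) ∘ FreeGroup.of = t ∘ q from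
    funext fun _ => FreeGroup.lift_apply_of] at this
  obtain ⟨w, k1, k2, -⟩ := NE_sub q.injective t this
  refine ⟨q ∘ τ, w, q.injective.comp h2, k1,
    fun j => (congrFun k2 (τ j)).trans (e.eq_symm_apply.2 (h3 j)), fun p hp => ?_⟩
  obtain ⟨p, rfl⟩ := q.surjective p
  exact (congrFun k2 p).trans (e.map_eq_one_iff.1 (h4 p fun ⟨j, k⟩ => hp ⟨j, congrArg q k⟩))

theorem min_gen {B : Type} [Group B] {n : ℕ} (h : Gens B n) : ∃ (r : ℕ) (a : Fin r → B),
    (∀ n, Gens B n → r ≤ n) ∧ Subgroup.closure (range a) = ⊤ := by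
  classical
  obtain ⟨a, ha⟩ := Nat.find_spec (⟨n, h⟩ : ∃ n, Gens B n)
  exact ⟨_, a, fun n k => Nat.find_min' _ k, ha⟩

theorem quad_uni {B : Type} [Group B] (h : Quad B) : Uni B := fun _ _ _ _ v w hv hw => by
  obtain ⟨r, a, k⟩ := quad_red h
  obtain ⟨τ, u, a1, a2, a3, a4⟩ := k _ v hv
  obtain ⟨τ', u', b1, b2, b3, b4⟩ := k _ w hw
  obtain ⟨π, hπ⟩ := Equiv.Perm.exists_extending_pair _ _ a1 b1
  have e : u = u' ∘ π := funext fun p => by
    by_cases q : p ∈ range τ
    · obtain ⟨j, rfl⟩ := q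
      rw [comp_apply, hπ, a3, b3]
    · rw [comp_apply, a4 p q, b4 _ fun ⟨j, e⟩ => q ⟨j, π.injective ((hπ j).trans e)⟩]
  exact NE_trans (NE_trans a2 (e ▸ (NE.perm u' π).symm)) b2.symm

theorem uni_red {B : Type} [Group B] (h : Uni B) {n : ℕ} (hn : Gens B n) :
    ∃ (r : ℕ) (a : Fin r → B), (∀ n, Gens B n → r ≤ n) ∧
      ∀ (κ : Type) [Fintype κ] [DecidableEq κ] (t : κ → B), Subgroup.closure (range t) = ⊤ →
        r < Fintype.card κ → Red a t := by
  obtain ⟨r, a, h1, h2⟩ := min_gen hn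
  refine ⟨r, a, h1, fun κ _ _ t ht k => ?_⟩
  let q := (Fintype.equivFin κ).symm
  obtain ⟨w, k1, k2, -⟩ := NE_sub q.injective t (h r _ ⟨a, h2⟩ k (t ∘ q) (fun i => AlgB_ext a i)
    (by rw [q.surjective.range_comp, ht]) (top_unique (h2.ge.trans (Subgroup.closure_mono (by
      rintro _ ⟨j, rfl⟩
      exact ⟨⟨j, j.2.trans k⟩, AlgB_ext_val a j⟩)))))
  refine ⟨q ∘ Fin.castLE k.le, w, q.injective.comp (Fin.castLE_injective _), k1,
    fun j => (congrFun k2 _).trans (AlgB_ext_val a j), fun p hp => ?_⟩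
  obtain ⟨p, rfl⟩ := q.surjective p
  exact (congrFun k2 p).trans (dif_neg fun z => hp ⟨⟨p, z⟩, rfl⟩)

variable {ι : Type} {A : ι → Type} [∀ i, Group (A i)] {g : ℕ}

open Classical in
/-- the projection of a free product onto a factor -/
noncomputable def prj (i : ι) : CoprodI A →* A i :=
  CoprodI.lift (Pi.mulSingle i (MonoidHom.id (A i)))

theorem prj_of (i : ι) (m : A i) : prj i (CoprodI.of m) = m := by
  classical
  simp [prj]

theorem prj_ne {i j : ι} (h : j ≠ i) {x : CoprodI A}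
    (hx : x ∈ (CoprodI.of (M := A) (i := j)).range) : prj i x = 1 := by
  classical
  obtain ⟨m, rfl⟩ := hx
  simp [prj, Pi.mulSingle_eq_of_ne h]

theorem of_prj {i : ι} {x : CoprodI A} (hx : x ∈ (CoprodI.of (M := A) (i := i)).range) :
    CoprodI.of (prj i x) = x := by
  obtain ⟨m, rfl⟩ := hx
  rw [prj_of]

theorem prj_gen {κ : Type} {w : κ → CoprodI A} (hw : Subgroup.closure (range w) = ⊤) (i : ι)
    (Q : κ → Prop) (hQ : ∀ p, ¬ Q p → prj i (w p) = 1) :
    Subgroup.closure (range fun p : {p // Q p} => prj i (w p)) = ⊤ :=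
  gen_sub (AlgB_gen hw (f := prj i) fun m => ⟨_, prj_of i m⟩) Q hQ

theorem NE_gru (i₀ : ι) {v : Fin g → CoprodI A} (hv : Subgroup.closure (range v) = ⊤) :
    ∃ (w : Fin g → CoprodI A) (c : Fin g → ι), NE v w ∧
      ∀ j, w j ∈ (CoprodI.of (M := A) (i := c j)).range := by
  obtain ⟨u, c, h1, h2⟩ := gru i₀ (FreeGroup.lift v) (by
    rw [← MonoidHom.range_eq_top, FreeGroup.range_lift_eq_closure, hv])
  have := (one_free g g _ _ (FreeGroup.closure_range_of _) h1).map (FreeGroup.lift v)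
  rw [show FreeGroup.lift v ∘ FreeGroup.of = v from funext fun _ => FreeGroup.lift_apply_of] at this
  exact ⟨_, c, this, h2⟩

open Classical in
theorem canon {r : ι → ℕ} {a : ∀ i, Fin (r i) → A i} {ρ : ℕ} (hm : ∀ i n, Gens (A i) n → r i ≤ n)
    (hs : ∀ i, Std (a i) ρ) (p₀ : Fin g) {c : Fin g → ι} {v : Fin g → CoprodI A}
    (hv : Subgroup.closure (range v) = ⊤) (hc : ∀ j, v j ∈ (CoprodI.of (M := A) (i := c j)).range)
    (hz : ρ ≤ (Finset.univ.filter fun p => v p = 1).card) (D : Finset ι) :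
    ∃ (w : Fin g → CoprodI A) (σ : ∀ i, Fin (r i) → Fin g), NE v w ∧
      (∀ i ∈ D, ∀ j ∈ D, ∀ x y, σ i x = σ j y → (⟨i, x⟩ : Σ i, Fin (r i)) = ⟨j, y⟩) ∧
      (∀ i ∈ D, ∀ x, w (σ i x) = CoprodI.of (a i x)) ∧
      (∀ p, (¬ ∃ i ∈ D, ∃ x, σ i x = p) →
        w p = 1 ∨ (c p ∉ D ∧ w p ∈ (CoprodI.of (M := A) (i := c p)).range)) ∧
      ρ ≤ (Finset.univ.filter fun p => (¬ ∃ i ∈ D, ∃ x, σ i x = p) ∧ w p = 1).card := by
  induction D using Finset.induction_on with
  | empty =>
    exact ⟨v, fun _ _ => p₀, .refl, by simp, by simp, fun p _ => Or.inr ⟨by simp, hc p⟩,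
      by simpa using hz⟩
  | insert i D hi ih =>
    obtain ⟨w, σ, h1, h2, h3, h4, h5⟩ := ih
    let Q : Fin g → Prop := fun p => (¬ ∃ i ∈ D, ∃ x, σ i x = p) ∧ (w p = 1 ∨ c p = i)
    have hw : Subgroup.closure (range w) = ⊤ := h1.closure ▸ hv
    have g1 := prj_gen hw i Q fun p hp => by
      by_cases q : ∃ i ∈ D, ∃ x, σ i x = p
      · obtain ⟨j, hj, x, rfl⟩ := q
        exact prj_ne (fun e : j = i => hi (e ▸ hj)) ⟨_, (h3 j hj x).symm⟩
      · have q' := not_or.1 (not_and.1 hp q)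
        exact prj_ne q'.2 ((h4 p q).resolve_left q'.1).2
    have g2 : ∀ p : {p // Q p}, CoprodI.of (prj i (w p)) = w p := fun p => by
      rcases h4 p p.2.1 with k | k
      · rw [k, map_one, map_one]
      · rcases p.2.2 with k' | k'
        · rw [k', map_one, map_one]
        · exact of_prj (k' ▸ k.2)
    have g3 : ρ ≤ (Finset.univ.filter fun p : {p // Q p} => prj i (w p) = 1).card := by
      refine h5.trans (Finset.card_le_card_of_surjOn Subtype.val fun p hp => ?_)
      have hp' := (Finset.mem_filter.1 hp).2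
      exact ⟨⟨p, hp'.1, Or.inl hp'.2⟩, by simp [hp'.2], rfl⟩
    have g4 := hm i _ (gens_card (gen_sub g1 (fun p => ¬ prj i (w p) = 1) fun p => not_not.1))
    rw [Fintype.card_subtype] at g4
    have g5 := Finset.card_filter_add_card_filter_not (s := Finset.univ)
      fun p : {p // Q p} => prj i (w p) = 1
    obtain ⟨τ, u, k1, k2, k3, k4⟩ := hs i _ _ g1 (by convert g3)
    have k5 : NE (w ∘ (Subtype.val : {p // Q p} → Fin g)) (CoprodI.of ∘ u) := by
      have := k2.map (CoprodI.of (M := A) (i := i))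
      rw [show (CoprodI.of ∘ fun p : {p // Q p} => prj i (w p)) = w ∘ Subtype.val from
        funext g2] at this
      convert this
    obtain ⟨w', l1, l2, l3⟩ := NE_sub Subtype.val_injective w k5
    have l4 : ∀ p : {p // Q p}, w' p = CoprodI.of (u p) := congrFun l2
    have l5 : ∀ p, ¬ Q p → w' p = w p := fun p hp => l3 p (by rwa [Subtype.range_coe_subtype])
    have ne : ∀ j ∈ D, j ≠ i := fun j hj e => hi (e ▸ hj)
    have R : ∀ p, (∃ j ∈ insert i D, ∃ x, update σ i (fun x => (τ x).1) j x = p) ↔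
        (∃ x, (τ x).1 = p) ∨ ∃ j ∈ D, ∃ x, σ j x = p := fun p => by
      rw [Finset.exists_mem_insert, update_self]
      exact or_congr_right (exists_congr fun j => and_congr_right fun hj => by
        rw [update_of_ne (ne j hj)])
    refine ⟨w', update σ i fun x => (τ x).1, NE_trans h1 l1, ?_, ?_, fun p hp => ?_, ?_⟩
    · intro j hj j' hj' x y e
      rcases Finset.mem_insert.1 hj with z | z <;> rcases Finset.mem_insert.1 hj' with z' | z'
      · subst z z'
        rw [update_self] at e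
        rw [k1 (Subtype.ext e)]
      · subst z
        rw [update_self, update_of_ne (ne _ z')] at e
        exact absurd ⟨j', z', y, e.symm⟩ (τ x).2.1
      · subst z'
        rw [update_self, update_of_ne (ne _ z)] at e
        exact absurd ⟨j, z, x, e⟩ (τ y).2.1
      · rw [update_of_ne (ne _ z), update_of_ne (ne _ z')] at e
        exact h2 j z j' z' x y e
    · intro j hj x
      rcases Finset.mem_insert.1 hj with rfl | hj
      · rw [update_self, l4, k3]
      · rw [update_of_ne (ne _ hj), l5 _ fun q => q.1 ⟨j, hj, x, rfl⟩, h3 j hj]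
    · rw [R, not_or] at hp
      by_cases q : Q p
      · refine Or.inl ((l4 ⟨p, q⟩).trans ?_)
        rw [k4 _ fun ⟨x, e⟩ => hp.1 ⟨x, congrArg Subtype.val e⟩, map_one]
      · have q' := not_or.1 (not_and.1 q hp.2)
        have k := (h4 p hp.2).resolve_left q'.1
        rw [l5 p q]
        exact Or.inr ⟨fun e => (Finset.mem_insert.1 e).elim q'.2 k.1, k.2⟩
    · have m1 : ((Finset.univ : Finset {p // Q p}) \ Finset.univ.image τ).card ≤
          (Finset.univ.filter fun p => (¬ ∃ j ∈ insert i D, ∃ x,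
            update σ i (fun x => (τ x).1) j x = p) ∧ w' p = 1).card := by
        refine Finset.card_le_card_of_injOn Subtype.val (fun p hp => ?_)
          Subtype.val_injective.injOn
        have hp' : p ∉ range τ := by simpa using hp
        refine Finset.mem_coe.2 (Finset.mem_filter.2 ⟨Finset.mem_univ _, ?_, ?_⟩)
        · rw [R, not_or]
          exact ⟨fun ⟨x, e⟩ => hp' ⟨x, Subtype.ext e⟩, p.2.1⟩
        · rw [l4, k4 p hp', map_one]
      rw [Finset.card_sdiff_of_subset (Finset.subset_univ _),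
        Finset.card_image_of_injective _ k1, Finset.card_fin] at m1
      omega

open Classical in
theorem fp_NE {r : ι → ℕ} {a : ∀ i, Fin (r i) → A i} {ρ : ℕ} (hm : ∀ i n, Gens (A i) n → r i ≤ n)
    (hs : ∀ i, Std (a i) ρ) {c c' : Fin g → ι} {v v' : Fin g → CoprodI A}
    (hv : Subgroup.closure (range v) = ⊤) (hc : ∀ j, v j ∈ (CoprodI.of (M := A) (i := c j)).range)
    (hz : ρ ≤ (Finset.univ.filter fun p => v p = 1).card)
    (hv' : Subgroup.closure (range v') = ⊤)
    (hc' : ∀ j, v' j ∈ (CoprodI.of (M := A) (i := c' j)).range)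
    (hz' : ρ ≤ (Finset.univ.filter fun p => v' p = 1).card) : NE v v' := by
  rcases isEmpty_or_nonempty (Fin g) with _ | ⟨⟨p₀⟩⟩
  · exact Subsingleton.elim v v' ▸ .refl
  let D := Finset.univ.image c ∪ Finset.univ.image c'
  obtain ⟨w, σ, h1, h2, h3, h4, -⟩ := canon hm hs p₀ hv hc hz D
  obtain ⟨w', σ', k1, k2, k3, k4, -⟩ := canon hm hs p₀ hv' hc' hz' D
  have inj : ∀ {σ : ∀ i, Fin (r i) → Fin g},
      (∀ i ∈ D, ∀ j ∈ D, ∀ x y, σ i x = σ j y → (⟨i, x⟩ : Σ i, Fin (r i)) = ⟨j, y⟩) →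
      Injective fun x : Σ i : D, Fin (r i) => σ x.1 x.2 := by
    rintro σ h ⟨⟨i, hi⟩, x⟩ ⟨⟨j, hj⟩, y⟩ e
    obtain ⟨rfl, e'⟩ := Sigma.mk.inj (h i hi j hj x y e)
    rw [eq_of_heq e']
  obtain ⟨π, hπ⟩ := Equiv.Perm.exists_extending_pair _ _ (inj h2) (inj k2)
  have e : w = w' ∘ π := funext fun p => by
    by_cases q : ∃ i ∈ D, ∃ x, σ i x = p
    · obtain ⟨i, hi, x, rfl⟩ := q
      rw [comp_apply, h3 i hi, hπ ⟨⟨i, hi⟩, x⟩, k3 i hi]
    · have q' : ¬ ∃ i ∈ D, ∃ x, σ' i x = π p := by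
        rintro ⟨i, hi, x, e⟩
        exact q ⟨i, hi, x, π.injective ((hπ ⟨⟨i, hi⟩, x⟩).trans e)⟩
      rw [comp_apply, (h4 p q).resolve_right fun k => k.1 (by simp [D]),
        (k4 _ q').resolve_right fun k => k.1 (by simp [D])]
  exact NE_trans (NE_trans h1 (e ▸ (NE.perm w' π).symm)) k1.symm

theorem triv [IsEmpty ι] : Subsingleton (CoprodI A) := by
  refine subsingleton_of_forall_eq 1 fun x => ?_
  induction x using CoprodI.induction_on with
  | one => rfl
  | of i => exact (IsEmpty.false i).elim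
  | mul x y a b => rw [a, b, mul_one]

/-- stabilised generating tuples are equivalent -/
def Stab (G : Type) [Group G] (g r k : ℕ) : Prop :=
  ∀ (s : Fin r → G) (s' : Fin k → G), Subgroup.closure (range s) = ⊤ →
    Subgroup.closure (range s') = ⊤ → NE (fun i : Fin g => AlgB_ext s i) fun i => AlgB_ext s' i

theorem ext_map {G G' : Type} [Group G] [Group G'] (f : G →* G') {r : ℕ} (s : Fin r → G) (n : ℕ) :
    f (AlgB_ext s n) = AlgB_ext (f ∘ s) n := by
  unfold AlgB_ext
  split_ifs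
  exacts [rfl, map_one f]

theorem Stab.equiv {G G' : Type} [Group G] [Group G'] {r k : ℕ} (h : Stab G g r k) (e : G ≃* G') :
    Stab G' g r k := fun s s' hs hs' => by
  have := (h _ _ (AlgB_gen hs (f := e.symm.toMonoidHom) e.symm.surjective)
    (AlgB_gen hs' (f := e.symm.toMonoidHom) e.symm.surjective)).map e.toMonoidHom
  have k : ∀ {n : ℕ} (s : Fin n → G'), (e.toMonoidHom ∘ fun i : Fin g =>
      AlgB_ext (e.symm.toMonoidHom ∘ s) i) = fun i : Fin g => AlgB_ext s i := fun s =>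
    funext fun i => by
      rw [comp_apply, ← ext_map]
      exact e.apply_symm_apply _
  rwa [k, k] at this

open Classical in
theorem ext_part (i₀ : ι) {m ρ : ℕ} (h : ρ + m ≤ g) {s : Fin m → CoprodI A}
    (hs : Subgroup.closure (range s) = ⊤) : ∃ (w : Fin g → CoprodI A) (c : Fin g → ι),
      NE (fun i : Fin g => AlgB_ext s i) w ∧ Subgroup.closure (range w) = ⊤ ∧
      (∀ j, w j ∈ (CoprodI.of (M := A) (i := c j)).range) ∧
      ρ ≤ (Finset.univ.filter fun p => w p = 1).card := by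
  obtain ⟨u, c, h1, h2⟩ := NE_gru i₀ hs
  have hm : m ≤ g := by omega
  obtain ⟨w, k1, k2, k3⟩ := NE_sub (Fin.castLE_injective hm) (fun i : Fin g => AlgB_ext s i)
    (u := u) (by
      rw [show ((fun i : Fin g => AlgB_ext s i) ∘ Fin.castLE hm) = s from
        funext fun i => AlgB_ext_val s i]
      exact h1)
  have k4 : ∀ p : Fin g, ¬ p.1 < m → w p = 1 := fun p hp =>
    (k3 p (by rintro ⟨j, rfl⟩; exact hp j.2)).trans (dif_neg hp)
  refine ⟨w, fun p => if h : p.1 < m then c ⟨p, h⟩ else i₀, k1, top_unique ?_, fun p => ?_, ?_⟩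
  · rw [← hs, h1.closure, ← k2]
    exact Subgroup.closure_mono (range_comp_subset_range _ _)
  · beta_reduce
    by_cases q : p.1 < m
    · rw [dif_pos q, show w p = u ⟨p, q⟩ from congrFun k2 ⟨p, q⟩]
      exact h2 _
    · rw [k4 p q]
      exact one_mem _
  · have := Finset.card_le_card_of_injOn (s := Finset.univ)
      (t := Finset.univ.filter fun p => w p = 1) (fun j : Fin ρ => (⟨m + j, by omega⟩ : Fin g))
      (fun j _ => Finset.mem_coe.2 (Finset.mem_filter.2 ⟨Finset.mem_univ _, k4 _ (by simp)⟩))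
      fun a _ b _ e => Fin.ext (by simpa using e)
    rwa [Finset.card_fin] at this

theorem stab_fp {ρ r k : ℕ} (h : ∀ i, Gens (A i) ρ ∨ (0 < ρ ∧ Uni (A i))) (hr : ρ + r ≤ g) (hk : ρ + k ≤ g) :
    Stab (CoprodI A) g r k := fun s s' hs hs' => by
  rcases isEmpty_or_nonempty ι with _ | ⟨⟨i₀⟩⟩
  · have := triv (A := A)
    exact Subsingleton.elim (fun i : Fin g => AlgB_ext s i) _ ▸ .refl
  have : ∀ i, ∃ (n : ℕ) (a : Fin n → A i), (∀ m, Gens (A i) m → n ≤ m) ∧ Std a ρ := fun i => by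
    rcases h i with h | h
    · obtain ⟨n, a, h1, h2⟩ := min_gen h
      exact ⟨n, a, h1, std_fill h2 (h1 ρ h)⟩
    · obtain ⟨n, a, h1, h2⟩ := uni_red h.2
        ⟨_, AlgB_gen hs (f := prj i) fun m => ⟨_, prj_of i m⟩⟩
      exact ⟨n, a, h1, std_red h.1 h2 h1⟩
  choose n a h1 h2 using this
  obtain ⟨w, c, k1, k2, k3, k4⟩ := ext_part i₀ hr hs
  obtain ⟨w', c', l1, l2, l3, l4⟩ := ext_part i₀ hk hs'
  exact NE_trans (NE_trans k1 (fp_NE h1 h2 k2 k3 k4 l2 l3 l4)) l1.symm

theorem one_fp {r : ℕ} (hr : r < g) (hA : ∀ i, Uni (A i))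
    (h : Gens (CoprodI A) r) : One (CoprodI A) g := by
  classical
  rcases isEmpty_or_nonempty ι with _ | ⟨⟨i₀⟩⟩
  · have := triv (A := A)
    exact fun v w _ _ => Subsingleton.elim v w ▸ .refl
  obtain ⟨s, hs⟩ := h
  choose n a h1 h2 using fun i => uni_red (hA i)
    ⟨_, AlgB_gen hs (f := prj i) fun m => ⟨_, prj_of i m⟩⟩
  obtain ⟨s', c', k1, k2⟩ := NE_gru i₀ hs
  have k3 : ∀ i, n i ≤ (Finset.univ.filter fun p => c' p = i).card := fun i => by
    have := h1 i _ (gens_card (prj_gen (k1.closure ▸ hs) i (fun p => c' p = i)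
      fun p hp => prj_ne hp (k2 p)))
    rwa [Fintype.card_subtype] at this
  have key : ∀ v : Fin g → CoprodI A, Subgroup.closure (range v) = ⊤ →
      ∃ (w : Fin g → CoprodI A) (c : Fin g → ι), NE v w ∧
        (∀ j, w j ∈ (CoprodI.of (M := A) (i := c j)).range) ∧
        1 ≤ (Finset.univ.filter fun p => w p = 1).card := fun v hv => by
    obtain ⟨w, c, l1, l2⟩ := NE_gru i₀ hv
    obtain ⟨i, -, hi⟩ : ∃ i ∈ Finset.univ.image c ∪ Finset.univ.image c',
        (Finset.univ.filter fun p => c' p = i).card <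
          (Finset.univ.filter fun p => c p = i).card := by
      refine Finset.exists_lt_of_sum_lt ?_
      have a1 := Finset.card_eq_sum_card_fiberwise (s := Finset.univ) (f := c)
        (t := Finset.univ.image c ∪ Finset.univ.image c') fun p _ => by simp
      have a2 := Finset.card_eq_sum_card_fiberwise (s := Finset.univ) (f := c')
        (t := Finset.univ.image c ∪ Finset.univ.image c') fun p _ => by simp
      rw [Finset.card_fin] at a1 a2
      exact a2.symm.trans_lt (hr.trans_eq a1)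
    have lt : n i < Fintype.card {p // c p = i} := by
      rw [Fintype.card_subtype]
      exact (k3 i).trans_lt hi
    obtain ⟨τ, u, -, m2, -, m4⟩ := h2 i _ _
      (prj_gen (l1.closure ▸ hv) i (fun p => c p = i) fun p hp => prj_ne hp (l2 p)) lt
    have m5 := m2.map (CoprodI.of (M := A) (i := i))
    rw [show (CoprodI.of ∘ fun p : {p // c p = i} => prj i (w p)) = w ∘ Subtype.val from
      funext fun p => of_prj (by have := l2 p.1; rwa [p.2] at this)] at m5
    obtain ⟨w', o1, o2, o3⟩ := NE_sub Subtype.val_injective w m5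
    have o4 : ∀ p : {p // c p = i}, w' p = CoprodI.of (u p) := congrFun o2
    refine ⟨w', c, NE_trans l1 o1, fun p => ?_, ?_⟩
    · by_cases q : c p = i
      · rw [o4 ⟨p, q⟩, q]
        exact ⟨_, rfl⟩
      · rw [o3 p (by rwa [Subtype.range_coe_subtype])]
        exact l2 p
    · obtain ⟨p, hp⟩ : ∃ p, p ∉ range τ := by
        by_contra q
        have := Fintype.card_le_of_surjective τ fun p => not_not.1 (not_exists.1 q p)
        rw [Fintype.card_fin] at this
        omega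
      exact Finset.card_pos.2 ⟨p.1, Finset.mem_filter.2 ⟨Finset.mem_univ _, by
        rw [o4, m4 p hp, map_one]⟩⟩
  intro v v' hv hv'
  obtain ⟨w, c, l1, l2, l3⟩ := key v hv
  obtain ⟨w', c'', m1, m2, m3⟩ := key v' hv'
  exact NE_trans (NE_trans l1 (fp_NE h1 (fun i => std_red one_pos (h2 i) (h1 i)) (l1.closure ▸ hv) l2
    (by convert l3) (m1.closure ▸ hv') m2 (by convert m3))) m1.symm

theorem tame_uni {G : Type} [Group G] (h : Tame G) : Uni G :=
  h (fun A _ => Uni A) (fun _ _ => quad_uni) (fun _ _ k _ _ a b => one_nil b k a)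
    (fun _ _ ⟨_, _, _, ⟨φ⟩, k⟩ _ _ a b =>
      (one_fp b k (Fin_gens a (f := φ.toMonoidHom) φ.surjective)).equiv φ.symm)
    fun A B _ _ f a b c => uni_ext _ A B f a b c rfl

end Pool.Agent.Work.MP_7ba843_gt.Y
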