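import Mathlib

/-! Grushko's theorem by binding ties in finite labelled graphs. -/

open Set Function Monoid

namespace Pool.Agent.Work.MP_7ba843_gt.Y

/-- paths through edges with the property `P`, with the product of the values of the edges -/
inductive Pth {V E F : Type} [Group F] (s t : E → V) (ψ : E → F) (P : E → Prop) (a : V) :
    V → F → Prop
  | nil : Pth s t ψ P a a 1
  | fwd {x : F} (e : E) : P e → Pth s t ψ P a (s e) x → Pth s t ψ P a (t e) (x * ψ e)
  | bwd {x : F} (e : E) : P e → Pth s t ψ P a (t e) x → Pth s t ψ P a (s e) (x * (ψ e)⁻¹)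

section
variable {V E F : Type} [Group F] {s t : E → V} {ψ : E → F} {P : E → Prop}

theorem Pth.cast {a b : V} {x y : F} (h : Pth s t ψ P a b x) (e : x = y) : Pth s t ψ P a b y :=
  e ▸ h

theorem Pth.trans {a b d : V} {x y : F} (h : Pth s t ψ P a b x) (h' : Pth s t ψ P b d y) :
    Pth s t ψ P a d (x * y) := by
  induction h' with
  | nil => exact h.cast (mul_one x).symm
  | fwd e he _ ih => exact (ih.fwd e he).cast (mul_assoc ..)
  | bwd e he _ ih => exact (ih.bwd e he).cast (mul_assoc ..)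

theorem Pth.edge {e : E} (he : P e) : Pth s t ψ P (s e) (t e) (ψ e) :=
  (Pth.nil.fwd e he).cast (one_mul _)

theorem Pth.symm {a b : V} {x : F} (h : Pth s t ψ P a b x) : Pth s t ψ P b a x⁻¹ := by
  induction h with
  | nil => exact Pth.nil.cast inv_one.symm
  | fwd e he _ ih => exact ((Pth.nil.bwd e he).trans ih).cast (by simp)
  | bwd e he _ ih => exact ((Pth.edge he).trans ih).cast (by simp)

theorem Pth.move {s' t' : E → V} {ψ' : E → F} {P' : E → Prop} (π : V → V) (T : V → F)
    (H : ∀ e, P e → Pth s' t' ψ' P' (π (s e)) (π (t e)) (T (s e) * ψ e * (T (t e))⁻¹))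
    {a b : V} {x : F} (h : Pth s t ψ P a b x) :
    Pth s' t' ψ' P' (π a) (π b) (T a * x * (T b)⁻¹) := by
  induction h with
  | nil => exact Pth.nil.cast (by simp)
  | fwd e he _ ih => exact (ih.trans (H e he)).cast (by group)
  | bwd e he _ ih => exact (ih.trans (H e he).symm).cast (by group)

theorem Pth.mono {P' : E → Prop} (H : ∀ e, P e → P' e) {a b : V} {x : F}
    (h : Pth s t ψ P a b x) : Pth s t ψ P' a b x := by
  induction h with
  | nil => exact .nil
  | fwd e he _ ih => exact ih.fwd e (H e he)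
  | bwd e he _ ih => exact ih.bwd e (H e he)

theorem Pth.mem {W : Set V} (H : ∀ e, P e → s e ∈ W ∧ t e ∈ W) {a b : V} {x : F}
    (h : Pth s t ψ P a b x) : a = b ∨ b ∈ W := by
  induction h with
  | nil => exact Or.inl rfl
  | fwd e he _ _ => exact Or.inr (H e he).2
  | bwd e he _ _ => exact Or.inr (H e he).1

theorem Pth.clo {a b : V} {x : F} (h : Pth s t ψ P a b x) :
    x ∈ Subgroup.closure (ψ '' {e | P e}) := by
  induction h with
  | nil => exact one_mem _
  | fwd e he _ ih => exact mul_mem ih (Subgroup.subset_closure ⟨e, he, rfl⟩)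
  | bwd e he _ ih => exact mul_mem ih (inv_mem (Subgroup.subset_closure ⟨e, he, rfl⟩))

theorem Pth.first {a b v : V} {x : F} (h : Pth s t ψ P a b x) (ha : a ≠ v) :
    (b ≠ v ∧ ∃ y, Pth s t ψ (fun e => P e ∧ s e ≠ v ∧ t e ≠ v) a b y) ∨
      ∃ e d y, P e ∧ d ≠ v ∧ Pth s t ψ (fun e => P e ∧ s e ≠ v ∧ t e ≠ v) a d y ∧
        ((s e = d ∧ t e = v) ∨ (t e = d ∧ s e = v)) := by
  induction h with
  | nil => exact Or.inl ⟨ha, 1, .nil⟩
  | fwd e he _ ih =>
    rcases ih with ⟨h1, y, h2⟩ | ih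
    · by_cases q : t e = v
      · exact Or.inr ⟨e, _, y, he, h1, h2, Or.inl ⟨rfl, q⟩⟩
      · exact Or.inl ⟨q, _, h2.fwd e ⟨he, h1, q⟩⟩
    · exact Or.inr ih
  | bwd e he _ ih =>
    rcases ih with ⟨h1, y, h2⟩ | ih
    · by_cases q : s e = v
      · exact Or.inr ⟨e, _, y, he, h1, h2, Or.inr ⟨rfl, q⟩⟩
      · exact Or.inl ⟨q, _, h2.bwd e ⟨he, q, h1⟩⟩
    · exact Or.inr ih

end

variable {ι : Type} {A : ι → Type} [∀ i, Group (A i)] {V E F : Type} [Group F]

/-- chains of paths of one colour -/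
inductive Ch (M : ∀ i, V → V → A i → Prop) : V → V → List (Σ i, A i) → Prop
  | nil (a : V) : Ch M a a []
  | cons {i : ι} {a b d : V} {m : A i} {L : List (Σ i, A i)} :
      M i a b m → Ch M b d L → Ch M a d (⟨i, m⟩ :: L)

theorem Ch.push {M : ∀ i, V → V → A i → Prop}
    (tr : ∀ i a b d m m', M i a b m → M i b d m' → M i a d (m * m'))
    (nt : ∀ i a b, M i a b 1 → a = b) {i : ι} {a b d : V} {m : A i} (h : M i a b m)
    (w : CoprodI.Word A) (hw : Ch M b d w.toList) :
    ∃ w' : CoprodI.Word A, Ch M a d w'.toList ∧ w'.prod = CoprodI.of m * w.prod := by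
  obtain ⟨L, h1, h2⟩ := w
  by_cases hm : m = 1
  · subst hm
    exact ⟨⟨L, h1, h2⟩, nt _ _ _ h ▸ hw, by simp⟩
  cases hw with
  | nil =>
    exact ⟨⟨[⟨i, m⟩], by simpa using hm, by simp⟩, .cons h (.nil _), by simp [CoprodI.Word.prod]⟩
  | @cons j _ b' _ m' L' k1 k2 =>
    by_cases q : i = j
    · subst q
      have k3 := tr _ _ _ _ _ _ h k1
      by_cases z : m * m' = 1
      · rw [z] at k3
        refine ⟨⟨L', fun l hl => h1 l (List.mem_cons_of_mem _ hl), h2.tail⟩,
          nt _ _ _ k3 ▸ k2, ?_⟩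
        simp only [CoprodI.Word.prod, List.map_cons, List.prod_cons]
        rw [← mul_assoc, ← map_mul, z, map_one, one_mul]
      · refine ⟨⟨⟨i, m * m'⟩ :: L', ?_, ?_⟩, .cons k3 k2, ?_⟩
        · intro l hl
          rcases List.mem_cons.1 hl with rfl | hl
          · exact z
          · exact h1 l (List.mem_cons_of_mem _ hl)
        · cases L' with
          | nil => simp
          | cons l L'' =>
            rw [List.isChain_cons_cons] at h2 ⊢
            exact h2
        · simp [CoprodI.Word.prod, mul_assoc]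
    · refine ⟨⟨⟨i, m⟩ :: ⟨j, m'⟩ :: L', ?_, List.isChain_cons_cons.2 ⟨q, h2⟩⟩,
        .cons h (.cons k1 k2), by simp [CoprodI.Word.prod]⟩
      intro l hl
      rcases List.mem_cons.1 hl with rfl | hl
      · exact hm
      · exact h1 l hl

theorem tie (φ : F →* CoprodI A) {s t : E → V} {ψ : E → F} {P : E → Prop} (c : E → ι)
    (h : V → CoprodI A)
    (lab : ∀ e, P e → (h (s e))⁻¹ * φ (ψ e) * h (t e) ∈ (CoprodI.of (M := A) (i := c e)).range)
    {a b : V} {x : F} (p : Pth s t ψ P a b x) (hab : a ≠ b) (h1 : (h a)⁻¹ * φ x * h b = 1) :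
    ∃ i a b x, a ≠ b ∧ Pth s t ψ (fun e => P e ∧ c e = i) a b x ∧ (h a)⁻¹ * φ x * h b = 1 := by
  classical
  by_contra con
  let M : ∀ i, V → V → A i → Prop := fun i a b m =>
    ∃ x, Pth s t ψ (fun e => P e ∧ c e = i) a b x ∧ (h a)⁻¹ * φ x * h b = CoprodI.of m
  have tr : ∀ i a b d m m', M i a b m → M i b d m' → M i a d (m * m') := by
    rintro i a b d m m' ⟨x, k1, k2⟩ ⟨y, k3, k4⟩
    exact ⟨_, k1.trans k3, by rw [map_mul, map_mul, ← k2, ← k4]; group⟩
  have nt : ∀ i a b, M i a b 1 → a = b := by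
    rintro i a b ⟨x, k1, k2⟩
    by_contra q
    exact con ⟨i, a, b, x, q, k1, k2.trans (map_one _)⟩
  have key : ∀ {b x}, Pth s t ψ P a b x →
      ∃ w : CoprodI.Word A, Ch M b a w.toList ∧ w.prod = ((h a)⁻¹ * φ x * h b)⁻¹ := by
    intro b x p
    induction p with
    | nil => exact ⟨.empty, .nil _, by simp⟩
    | fwd e he _ ih =>
      obtain ⟨w, k1, k2⟩ := ih
      obtain ⟨m, hm⟩ := lab e he
      obtain ⟨w', k3, k4⟩ := Ch.push tr nt (i := c e) (a := t e) (m := m⁻¹)
        ⟨_, (Pth.edge ⟨he, rfl⟩).symm, by rw [map_inv, map_inv, hm]; group⟩ w k1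
      exact ⟨w', k3, by rw [k4, k2, map_inv, hm, map_mul]; group⟩
    | bwd e he _ ih =>
      obtain ⟨w, k1, k2⟩ := ih
      obtain ⟨m, hm⟩ := lab e he
      obtain ⟨w', k3, k4⟩ := Ch.push tr nt (i := c e) (a := s e) (m := m)
        ⟨_, Pth.edge ⟨he, rfl⟩, hm.symm⟩ w k1
      exact ⟨w', k3, by rw [k4, k2, hm, map_mul, map_inv]; group⟩
  obtain ⟨w, k1, k2⟩ := key p
  rw [h1, inv_one, ← CoprodI.Word.prod_empty] at k2
  obtain rfl : w = .empty := CoprodI.Word.equiv.symm.injective k2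
  cases k1
  exact hab rfl

theorem Pth.lab (φ : F →* CoprodI A) {s t : E → V} {ψ : E → F} {P : E → Prop} {i : ι}
    (h : V → CoprodI A)
    (lab : ∀ e, P e → (h (s e))⁻¹ * φ (ψ e) * h (t e) ∈ (CoprodI.of (M := A) (i := i)).range)
    {a b : V} {x : F} (p : Pth s t ψ P a b x) :
    (h a)⁻¹ * φ x * h b ∈ (CoprodI.of (M := A) (i := i)).range := by
  induction p with
  | nil => simp
  | fwd e he _ ih =>
    convert mul_mem ih (lab e he) using 1
    rw [map_mul]; group
  | bwd e he _ ih =>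
    convert mul_mem ih (inv_mem (lab e he)) using 1
    rw [map_mul, map_inv]; group

theorem gru_ind (φ : F →* CoprodI A) (hφ : Surjective φ) (c : E → ι) (h : V → CoprodI A) (v₀ : V)
    (h₀ : h v₀ = 1) (n : ℕ) : ∀ (W : Finset V) (S : Finset E) (s t : E → V) (ψ : E → F),
    W.card = n + 1 → v₀ ∈ W → (∀ e ∈ S, s e ∈ W ∧ t e ∈ W) →
    (∀ e ∈ S, (h (s e))⁻¹ * φ (ψ e) * h (t e) ∈ (CoprodI.of (M := A) (i := c e)).range) →
    (∀ x, Pth s t ψ (· ∈ S) v₀ v₀ x) → (∀ v ∈ W, ∃ x, Pth s t ψ (· ∈ S) v₀ v x) →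
    ∃ (S' : Finset E) (u : E → F), S'.card + n = S.card ∧ Subgroup.closure (u '' S') = ⊤ ∧
      ∀ e ∈ S', φ (u e) ∈ (CoprodI.of (M := A) (i := c e)).range := by
  classical
  induction n with
  | zero =>
    intro W S s t ψ hW hv hS lab loops _
    have one : ∀ v ∈ W, v = v₀ := fun v q => Finset.card_le_one.1 hW.le v q v₀ hv
    refine ⟨S, ψ, rfl, top_unique fun x _ => (loops x).clo, fun e he => ?_⟩
    have := lab e he
    rwa [one _ (hS e he).1, one _ (hS e he).2, h₀, inv_one, one_mul, mul_one] at this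
  | succ n ih =>
    intro W S s t ψ hW hv hS lab loops conn
    obtain ⟨v, hv', hne⟩ := Finset.exists_mem_ne (s := W) (by omega) v₀
    obtain ⟨x, px⟩ := conn v hv'
    obtain ⟨y, hy⟩ := hφ (φ x * h v)
    obtain ⟨i, v₁, v₂, γ, h12, p, hp, h2⟩ : ∃ i a b x, a ≠ b ∧
        Pth s t ψ (fun e => e ∈ S ∧ c e = i) a b x ∧ (h a)⁻¹ * φ x * h b = 1 ∧ b ≠ v₀ := by
      obtain ⟨i, a, b, x, k1, k2, k3⟩ := tie φ c h lab ((loops y⁻¹).trans px) hne.symm (by
        rw [map_mul, map_inv, hy, h₀]; group)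
      by_cases q : b = v₀
      · refine ⟨i, b, a, x⁻¹, k1.symm, k2.symm, ?_, q ▸ k1⟩
        rw [← inv_eq_one, map_inv, ← k3]; group
      · exact ⟨i, a, b, x, k1, k2, k3, q⟩
    have m2 : v₂ ∈ W :=
      (p.mem (W := (W : Set V)) fun e he => hS e he.1).resolve_left h12
    have m1 : v₁ ∈ W :=
      (p.symm.mem (W := (W : Set V)) fun e he => hS e he.1).resolve_left h12.symm
    obtain ⟨e₀, d, q, he₀, hd, pq, hc⟩ := (p.first h12).resolve_left fun k => k.1 rfl
    obtain ⟨τ, pτ, hτ⟩ : ∃ τ, Pth s t ψ (fun e => e ∈ S ∧ c e = i) v₁ v₂ τ ∧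
        ((s e₀ = d ∧ t e₀ = v₂ ∧ τ = q * ψ e₀) ∨ (t e₀ = d ∧ s e₀ = v₂ ∧ τ = q * (ψ e₀)⁻¹)) := by
      have pq' : Pth s t ψ (fun e => e ∈ S ∧ c e = i) v₁ d q := pq.mono fun e he => he.1
      rcases hc with ⟨k1, k2⟩ | ⟨k1, k2⟩
      · exact ⟨_, k2 ▸ (k1 ▸ pq').fwd e₀ he₀, Or.inl ⟨k1, k2, rfl⟩⟩
      · exact ⟨_, k2 ▸ (k1 ▸ pq').bwd e₀ he₀, Or.inr ⟨k1, k2, rfl⟩⟩
    let π : V → V := fun w => if w = v₂ then v₁ else w
    let T : F → V → F := fun z w => if w = v₂ then z else 1
    let δ : E → F := fun e => if c e = i then τ else γ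
    let ψ' : E → F := fun e => T (δ e) (s e) * ψ e * (T (δ e) (t e))⁻¹
    have πn : ∀ w, w ≠ v₂ → π w = w := fun w k => if_neg k
    have Tn : ∀ z w, w ≠ v₂ → T z w = 1 := fun z w k => if_neg k
    have π2 : π v₂ = v₁ := if_pos rfl
    have T2 : ∀ z, T z v₂ = z := fun z => if_pos rfl
    have E1 : ∀ e ∈ S, e ≠ e₀ →
        Pth (π ∘ s) (π ∘ t) ψ' (· ∈ S.erase e₀) (π (s e)) (π (t e)) (ψ' e) := fun e he k =>
      Pth.edge (s := π ∘ s) (t := π ∘ t) (Finset.mem_erase.2 ⟨k, he⟩)
    have E2 : Pth (π ∘ s) (π ∘ t) ψ' (· ∈ S.erase e₀) v₁ d q := by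
      have := pq.move π (fun _ => 1) fun e he => (E1 e he.1.1 (by
        rintro rfl
        rcases hc with k | k
        exacts [he.2.2 k.2, he.2.1 k.2])).cast (by simp only [ψ', Tn _ _ he.2.1, Tn _ _ he.2.2])
      rw [πn _ h12, πn _ hd] at this
      exact this.cast (by simp)
    have E3 : ∀ e, e ∈ S ∧ c e = i → Pth (π ∘ s) (π ∘ t) ψ' (· ∈ S.erase e₀) (π (s e)) (π (t e))
        (T τ (s e) * ψ e * (T τ (t e))⁻¹) := fun e he => by
      by_cases k : e = e₀
      · subst k
        rcases hτ with ⟨k1, k2, k3⟩ | ⟨k1, k2, k3⟩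
        · rw [k1, k2, π2, T2, πn _ hd, Tn _ _ hd, k3]
          exact E2.symm.cast (by group)
        · rw [k1, k2, π2, T2, πn _ hd, Tn _ _ hd, k3]
          exact E2.cast (by group)
      · exact (E1 e he.1 k).cast (by simp only [ψ', δ, if_pos he.2])
    have E4 : ∀ w, Pth (π ∘ s) (π ∘ t) ψ' (· ∈ S.erase e₀) (π w) (π w) (T γ w * (T τ w)⁻¹) := by
      intro w
      by_cases k : w = v₂
      · have := p.move π (T τ) E3
        rw [πn _ h12, Tn _ _ h12, one_mul, π2] at this
        rwa [k, π2, T2]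
      · rw [Tn _ _ k, Tn _ _ k]
        exact Pth.nil.cast (by simp)
    have E5 : ∀ e, e ∈ S → Pth (π ∘ s) (π ∘ t) ψ' (· ∈ S.erase e₀) (π (s e)) (π (t e))
        (T γ (s e) * ψ e * (T γ (t e))⁻¹) := fun e he => by
      by_cases k : c e = i
      · exact (((E4 _).trans (E3 e ⟨he, k⟩)).trans (E4 _).symm).cast (by group)
      · exact (E1 e he (by rintro rfl; exact k he₀.2)).cast (by simp only [ψ', δ, if_neg k])
    have πW : ∀ w ∈ W, π w ∈ W.erase v₂ := fun w hw => by
      by_cases k : w = v₂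
      · rw [k, π2]
        exact Finset.mem_erase.2 ⟨h12, m1⟩
      · rw [πn _ k]
        exact Finset.mem_erase.2 ⟨k, hw⟩
    have κ : ∀ e w, (h (π w))⁻¹ * φ (T (δ e) w) * h w ∈
        (CoprodI.of (M := A) (i := c e)).range := fun e w => by
      by_cases k : w = v₂
      · rw [k, π2, T2]
        by_cases k' : c e = i
        · simp only [δ, if_pos k']
          rw [k']
          exact pτ.lab φ h fun e he => he.2 ▸ lab e he.1
        · simp only [δ, if_neg k', hp]
          exact one_mem _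
      · rw [πn _ k, Tn _ _ k]
        simp
    obtain ⟨S', u, k1, k2, k3⟩ := ih (W.erase v₂) (S.erase e₀) (π ∘ s) (π ∘ t) ψ'
      (by rw [Finset.card_erase_of_mem m2, hW]; rfl) (Finset.mem_erase.2 ⟨h2.symm, hv⟩)
      (fun e he => ⟨πW _ (hS e (Finset.mem_of_mem_erase he)).1,
        πW _ (hS e (Finset.mem_of_mem_erase he)).2⟩)
      (fun e he => by
        convert mul_mem (mul_mem (κ e (s e)) (lab e (Finset.mem_of_mem_erase he)))
          (inv_mem (κ e (t e))) using 1
        simp only [ψ', map_mul, map_inv, comp_apply]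
        group)
      (fun x => by
        have := (loops x).move π (T γ) E5
        rw [πn _ h2.symm, Tn _ _ h2.symm] at this
        exact this.cast (by simp))
      fun v hv => by
        obtain ⟨x, px⟩ := conn v (Finset.mem_of_mem_erase hv)
        have := px.move π (T γ) E5
        rw [πn _ h2.symm, πn _ (Finset.mem_erase.1 hv).1] at this
        exact ⟨_, this⟩
    refine ⟨S', u, ?_, k2, k3⟩
    rw [Finset.card_erase_of_mem he₀.1] at k1
    have := Finset.card_pos.2 ⟨e₀, he₀.1⟩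
    omega

theorem gru {g : ℕ} (i₀ : ι) (φ : FreeGroup (Fin g) →* CoprodI A) (hφ : Surjective φ) :
    ∃ (u : Fin g → FreeGroup (Fin g)) (c : Fin g → ι), Subgroup.closure (range u) = ⊤ ∧
      ∀ j, φ (u j) ∈ (CoprodI.of (M := A) (i := c j)).range := by
  classical
  have hL : ∀ j : Fin g, ∃ L : List (Σ i, A i), 0 < L.length ∧
      (L.map fun l => CoprodI.of l.2).prod = φ (FreeGroup.of j) := fun j =>
    ⟨⟨i₀, 1⟩ :: (CoprodI.Word.equiv (φ (FreeGroup.of j))).toList, by simp, by
      simp only [List.map_cons, List.prod_cons, map_one, one_mul]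
      exact CoprodI.Word.equiv.symm_apply_apply _⟩
  choose L L0 L1 using hL
  let S : Finset (Fin g × ℕ) :=
    Finset.univ.biUnion fun j => (Finset.range (L j).length).image fun m => (j, m)
  have mS : ∀ e, e ∈ S ↔ e.2 < (L e.1).length := fun e => by
    simp only [S, Finset.mem_biUnion, Finset.mem_univ, true_and, Finset.mem_image,
      Finset.mem_range]
    exact ⟨by rintro ⟨j, m, k, rfl⟩; exact k, fun k => ⟨e.1, e.2, k, rfl⟩⟩
  let W : Finset (Option (Fin g × ℕ)) := Finset.insertNone (S.filter fun e => e.2 ≠ 0)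
  let s : Fin g × ℕ → Option (Fin g × ℕ) := fun e => if e.2 = 0 then none else some e
  let t : Fin g × ℕ → Option (Fin g × ℕ) := fun e =>
    if e.2 + 1 = (L e.1).length then none else some (e.1, e.2 + 1)
  let ψ : Fin g × ℕ → FreeGroup (Fin g) := fun e => if e.2 = 0 then FreeGroup.of e.1 else 1
  let H : Fin g × ℕ → CoprodI A := fun e =>
    (φ (FreeGroup.of e.1))⁻¹ * (((L e.1).take e.2).map fun l => CoprodI.of l.2).prod
  let h : Option (Fin g × ℕ) → CoprodI A := fun v => v.elim 1 H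
  have pt : ∀ j m, m < (L j).length → Pth s t ψ (· ∈ S) none (t (j, m)) (FreeGroup.of j) := by
    intro j m
    induction m with
    | zero => exact fun k => Pth.edge (s := s) (t := t) (ψ := ψ) (e := (j, 0)) ((mS _).2 k)
    | succ m ih =>
      intro k
      have e : t (j, m) = s (j, m + 1) := by
        simp only [s, t, if_neg k.ne, if_neg m.succ_ne_zero]
      exact ((e ▸ ih (by omega)).fwd (j, m + 1) ((mS _).2 k)).cast (mul_one _)
  obtain ⟨S', u, k1, k2, k3⟩ := gru_ind φ hφ (fun e => ((L e.1).getD e.2 ⟨i₀, 1⟩).1) h none rfl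
    (S.filter fun e => e.2 ≠ 0).card W S s t ψ (Finset.card_insertNone _) (by simp [W])
    (fun e he => by
      rw [mS] at he
      constructor
      · simp only [s]
        split_ifs with k
        · simp [W]
        · simpa [W, mS, he] using k
      · simp only [t]
        split_ifs with k
        · simp [W]
        · simp only [W, Finset.some_mem_insertNone, Finset.mem_filter, mS]
          omega)
    (fun e he => by
      rw [mS] at he
      have a1 : (h (s e))⁻¹ * φ (ψ e) = (H e)⁻¹ := by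
        simp only [s, ψ]
        split_ifs with k
        · simp [h, H, k]
        · simp [h]
      have a2 : h (t e) = H (e.1, e.2 + 1) := by
        simp only [t]
        split_ifs with k
        · simp only [h, H, k, List.take_length, L1, Option.elim_none, inv_mul_cancel]
        · rfl
      refine ⟨((L e.1).getD e.2 ⟨i₀, 1⟩).2, ?_⟩
      rw [a1, a2]
      simp only [H]
      rw [List.take_succ_eq_append_getElem he, List.map_append, List.prod_append,
        List.getD_eq_getElem _ _ he]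
      simp [mul_assoc])
    (fun x => by
      induction x using FreeGroup.induction_on with
      | C1 => exact .nil
      | of j =>
        have := pt j ((L j).length - 1) (by have := L0 j; omega)
        simp only [t] at this
        rwa [if_pos (by have := L0 j; omega)] at this
      | inv_of j k => exact k.symm
      | mul x y a b => exact a.trans b)
    fun v hv => by
      rcases v with _ | ⟨j, m⟩
      · exact ⟨1, .nil⟩
      · simp only [W, Finset.some_mem_insertNone, Finset.mem_filter, mS] at hv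
        obtain ⟨m, rfl⟩ := Nat.exists_eq_succ_of_ne_zero hv.2
        have := pt j m (by omega)
        simp only [t] at this
        rw [if_neg (by omega)] at this
        exact ⟨_, this⟩
  have c0 : (S.filter fun e => ¬ e.2 ≠ 0).card = g := by
    rw [show (S.filter fun e => ¬ e.2 ≠ 0) = Finset.univ.image fun j : Fin g => (j, 0) from ?_,
      Finset.card_image_of_injective _ fun a b k => (Prod.mk.inj k).1, Finset.card_fin]
    ext ⟨j, m⟩
    simp only [Finset.mem_filter, mS, not_not, Finset.mem_image, Finset.mem_univ, true_and,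
      Prod.mk.injEq]
    exact ⟨fun k => ⟨j, rfl, k.2.symm⟩, by rintro ⟨_, rfl, rfl⟩; exact ⟨L0 _, rfl⟩⟩
  have c1 := Finset.card_filter_add_card_filter_not (s := S) fun e => e.2 ≠ 0
  let f := (S'.equivFinOfCardEq (n := g) (by omega)).symm
  refine ⟨fun j => u (f j), _, ?_, fun j => k3 _ (f j).2⟩
  rw [← k2]
  congr 1
  ext x
  exact ⟨by rintro ⟨j, rfl⟩; exact ⟨_, (f j).2, rfl⟩,
    by rintro ⟨e, he, rfl⟩; exact ⟨f.symm ⟨e, he⟩, by simp⟩⟩

end Pool.Agent.Work.MP_7ba843_gt.Y
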