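import Pool.Agent.Work.MP_7ba843_gt.Y.Gru

/-! Folding of surface-like complexes over a one-relator group with a quadratic relator. -/

open Set Function

set_option linter.unusedSectionVars false

namespace Pool.Agent.Work.MP_7ba843_gt.Y

/-- the group, the relator read along the cycle `σ` and the labels -/
structure Cx (Λ P V E F G : Type) [Group F] [Group G] where
  φ : F →* G
  gen : Λ → G
  lab : E → Λ
  h : V → G
  v₀ : V
  l : P → Λ
  ε : P → Bool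
  σ : Equiv.Perm P
  star : P → P
  h₀ : h v₀ = 1
  st1 : ∀ j, star j ≠ j
  st2 : ∀ j, star (star j) = j
  st3 : ∀ i j, l i = l j → i = j ∨ i = star j
  st4 : ∀ j, l (star j) = l j
  cyc : ∀ (Q : P → Prop) j, Q j → (∀ i, Q i → Q (σ i)) → ∀ i, Q i
  pot : ∀ (x : P → F) j, ∃ θ : P → F, ∀ i, i ≠ j → θ (σ i) = θ i * x i
  rel : ∃ η : P → G, ∀ i, η (σ i) = η i * cond (ε i) (gen (l i)) (gen (l i))⁻¹

/-- a finite graph with faces -/
structure Dat (P V E F : Type) where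
  W : Finset V
  S : Finset E
  K : Finset E
  s : E → V
  t : E → V
  ψ : E → F
  Φ : Finset (P → E)

variable {Λ P V E F G : Type} [Group F] [Group G]

namespace Dat
variable (Y : Dat P V E F)

/-- initial vertex in the direction `b` -/
def src (b : Bool) (e : E) : V := cond b (Y.s e) (Y.t e)
/-- terminal vertex in the direction `b` -/
def tgt (b : Bool) (e : E) : V := cond b (Y.t e) (Y.s e)
/-- value in the direction `b` -/
def val (b : Bool) (e : E) : F := cond b (Y.ψ e) (Y.ψ e)⁻¹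
/-- the rank -/
def rk : ℤ := Y.S.card + Y.K.card + 1 - Y.W.card - Y.Φ.card
/-- paths -/
def Pa : V → V → F → Prop := Pth Y.s Y.t Y.ψ fun e => e ∈ Y.S ∨ e ∈ Y.K

end Dat

variable (C : Cx Λ P V E F G)

/-- a face -/
def Face (Y : Dat P V E F) (f : P → E) : Prop :=
  (∀ i, f i ∈ Y.S ∧ C.lab (f i) = C.l i ∧ Y.tgt (C.ε i) (f i) = Y.src (C.ε (C.σ i)) (f (C.σ i))) ∧
    ∃ θ : P → F, ∀ i, θ (C.σ i) = θ i * Y.val (C.ε i) (f i)

/-- admissible complexes -/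
structure Ok (H : Set F) (Y : Dat P V E F) : Prop where
  v0 : C.v₀ ∈ Y.W
  ends : ∀ e ∈ Y.S, Y.s e ∈ Y.W ∧ Y.t e ∈ Y.W
  labs : ∀ e ∈ Y.S, C.φ (Y.ψ e) = C.h (Y.s e) * C.gen (C.lab e) * (C.h (Y.t e))⁻¹
  kil : ∀ e ∈ Y.K, Y.s e = C.v₀ ∧ Y.t e = C.v₀ ∧ C.φ (Y.ψ e) = 1
  disj : ∀ e ∈ Y.S, e ∉ Y.K
  loops : ∀ x ∈ H, Y.Pa C.v₀ C.v₀ x
  conn : ∀ v ∈ Y.W, ∃ x, Y.Pa C.v₀ v x
  faces : ∀ f ∈ Y.Φ, Face C Y f
  surf : ∀ f ∈ Y.Φ, ∀ f' ∈ Y.Φ, ∀ i, f i = f' i → f = f'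
  nc : ∀ D ⊆ Y.Φ, D.Nonempty → ∃ f ∈ D, ∃ j, ∀ f' ∈ D, f' (C.star j) ≠ f j

/-- folded complexes -/
def Imm (Y : Dat P V E F) : Prop :=
  ∀ e ∈ Y.S, ∀ e' ∈ Y.S, C.lab e = C.lab e' → ∀ b, Y.src b e = Y.src b e' → e = e'

/-- maps of labelled graphs -/
def Hom (Y Z : Dat P V E F) (π : V → V) (ρ : E → E) : Prop :=
  π C.v₀ = C.v₀ ∧ ∀ e ∈ Y.S, ρ e ∈ Z.S ∧ C.lab (ρ e) = C.lab e ∧ Z.s (ρ e) = π (Y.s e) ∧
    Z.t (ρ e) = π (Y.t e)

/-- the complex can be folded -/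
def Res [DecidableEq E] (H : Set F) (Y : Dat P V E F) : Prop :=
  ∃ Z π ρ, Ok C H Z ∧ Imm C Z ∧ Hom C Y Z π ρ ∧ Z.S ⊆ Y.S ∧ Z.K ⊆ Y.S ∪ Y.K ∧ Z.rk ≤ Y.rk

variable {C} {H : Set F} {Y Z : Dat P V E F}

theorem Hom.comp {X : Dat P V E F} {π π' : V → V} {ρ ρ' : E → E} (a : Hom C X Y π ρ)
    (b : Hom C Y Z π' ρ') : Hom C X Z (π' ∘ π) (ρ' ∘ ρ) :=
  ⟨by rw [comp_apply, a.1, b.1], fun e he => by
    obtain ⟨a1, a2, a3, a4⟩ := a.2 e he
    obtain ⟨b1, b2, b3, b4⟩ := b.2 _ a1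
    exact ⟨b1, b2.trans a2, b3.trans (congrArg π' a3), b4.trans (congrArg π' a4)⟩⟩

theorem Hom.src {π : V → V} {ρ : E → E} (a : Hom C Y Z π ρ) {e : E} (he : e ∈ Y.S) (b : Bool) :
    Z.src b (ρ e) = π (Y.src b e) ∧ Z.tgt b (ρ e) = π (Y.tgt b e) := by
  obtain ⟨-, -, a3, a4⟩ := a.2 e he
  cases b
  exacts [⟨a4, a3⟩, ⟨a3, a4⟩]

theorem Res.of [DecidableEq E] {π : V → V} {ρ : E → E} (r : Res C H Z) (a : Hom C Y Z π ρ)
    (h1 : Z.S ⊆ Y.S) (h2 : Z.K ⊆ Y.S ∪ Y.K) (h3 : Z.rk ≤ Y.rk) : Res C H Y := by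
  obtain ⟨X, π', ρ', b1, b2, b3, b4, b5, b6⟩ := r
  exact ⟨X, _, _, b1, b2, a.comp b3, b4.trans h1,
    b5.trans (Finset.union_subset (h1.trans Finset.subset_union_left) h2), b6.trans h3⟩

theorem pth_dir {Q : E → Prop} {e : E} (he : Q e) (b : Bool) :
    Pth Y.s Y.t Y.ψ Q (Y.src b e) (Y.tgt b e) (Y.val b e) := by
  cases b
  exacts [(Pth.edge he).symm, Pth.edge he]

theorem Ok.dlab (o : Ok C H Y) {e : E} (he : e ∈ Y.S) (b : Bool) : C.φ (Y.val b e) =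
    C.h (Y.src b e) * cond b (C.gen (C.lab e)) (C.gen (C.lab e))⁻¹ * (C.h (Y.tgt b e))⁻¹ := by
  cases b
  · simp only [Dat.val, Dat.src, Dat.tgt, cond_false, map_inv, o.labs e he]
    group
  · exact o.labs e he

theorem Ok.dend (o : Ok C H Y) {e : E} (he : e ∈ Y.S) (b : Bool) :
    Y.src b e ∈ Y.W ∧ Y.tgt b e ∈ Y.W := by
  cases b
  exacts [(o.ends e he).symm, o.ends e he]

theorem Imm.tgt (i : Imm C Y) {e e' : E} (he : e ∈ Y.S) (he' : e' ∈ Y.S) (h : C.lab e = C.lab e')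
    {b : Bool} (k : Y.tgt b e = Y.tgt b e') : e = e' := by
  cases b
  exacts [i e he e' he' h true k, i e he e' he' h false k]

theorem cyc_ind (j : P) {Q : P → Prop} (h0 : Q (C.σ j)) (hs : ∀ i, i ≠ j → Q i → Q (C.σ i)) :
    ∀ i, Q i :=
  C.cyc Q _ h0 fun i hi => by
    by_cases q : i = j
    exacts [q ▸ h0, hs i q hi]

theorem sig_ne (j : P) : C.σ j ≠ j := fun h =>
  C.st1 j (C.cyc (· = j) j rfl (fun _ hi => hi ▸ h) _)

theorem Pth.conn {s t s' t' : E → V} {ψ ψ' : E → F} {Q Q' : E → Prop}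
    (H : ∀ e, Q e → ∃ y, Pth s' t' ψ' Q' (s e) (t e) y) {a b : V} {x : F}
    (h : Pth s t ψ Q a b x) : ∃ y, Pth s' t' ψ' Q' a b y := by
  induction h with
  | nil => exact ⟨1, .nil⟩
  | fwd e he _ ih => exact ih.elim fun _ p => (H e he).elim fun _ q => ⟨_, p.trans q⟩
  | bwd e he _ ih => exact ih.elim fun _ p => (H e he).elim fun _ q => ⟨_, p.trans q.symm⟩

theorem Pth.same {s t s' t' : E → V} {ψ ψ' : E → F} {Q Q' : E → Prop}
    (H : ∀ e, Q e → Pth s' t' ψ' Q' (s e) (t e) (ψ e)) {a b : V} {x : F}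
    (h : Pth s t ψ Q a b x) : Pth s' t' ψ' Q' a b x :=
  (Pth.move (s' := s') (t' := t') (fun v => v) (fun _ => 1)
    (fun e he => (H e he).cast (by simp)) h).cast (by simp)

variable [DecidableEq V] [DecidableEq E]

theorem Ok.erase (o : Ok C H Y) {e₀ : E} {Φ' : Finset (P → E)} (hΦ : Φ' ⊆ Y.Φ)
    (hf : ∀ f ∈ Φ', ∀ i, f i ≠ e₀)
    (p : Pth Y.s Y.t Y.ψ (fun e => e ∈ Y.S.erase e₀ ∨ e ∈ Y.K) (Y.s e₀) (Y.t e₀) (Y.ψ e₀)) :
    Ok C H { Y with S := Y.S.erase e₀, Φ := Φ' } := by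
  have mv : ∀ {a b x}, Y.Pa a b x →
      Pth Y.s Y.t Y.ψ (fun e => e ∈ Y.S.erase e₀ ∨ e ∈ Y.K) a b x := fun q =>
    q.same fun e he => by
      by_cases k : e = e₀
      · exact k ▸ p
      · exact Pth.edge (he.imp_left fun z => Finset.mem_erase.2 ⟨k, z⟩)
  exact ⟨o.v0, fun e he => o.ends e (Finset.mem_of_mem_erase he),
    fun e he => o.labs e (Finset.mem_of_mem_erase he), o.kil,
    fun e he => o.disj e (Finset.mem_of_mem_erase he), fun x hx => mv (o.loops x hx),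
    fun v hv => (o.conn v hv).imp fun _ => mv,
    fun f h => ⟨fun i => ⟨Finset.mem_erase.2 ⟨hf f h i, ((o.faces f (hΦ h)).1 i).1⟩,
      ((o.faces f (hΦ h)).1 i).2⟩, (o.faces f (hΦ h)).2⟩,
    fun f h f' h' => o.surf f (hΦ h) f' (hΦ h'), fun D h => o.nc D (h.trans hΦ)⟩

theorem Ok.ident (o : Ok C H Y) {x y : V} (hx : x ∈ Y.W) (hy : y ∈ Y.W) (hxy : x ≠ y) {δ : F}
    (hδ : C.φ δ = C.h x * (C.h y)⁻¹) : ∃ (π : V → V) (T : V → F) (W' : Finset V),
      π x = π y ∧ T x * δ * (T y)⁻¹ = 1 ∧ π C.v₀ = C.v₀ ∧ W'.card + 1 = Y.W.card ∧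
      Ok C H ⟨W', Y.S, Y.K, π ∘ Y.s, π ∘ Y.t, fun e => T (Y.s e) * Y.ψ e * (T (Y.t e))⁻¹, Y.Φ⟩ := by
  wlog h0 : y ≠ C.v₀ generalizing x y δ
  · obtain ⟨π, T, W', a, b, c⟩ := this hy hx hxy.symm (δ := δ⁻¹) (by rw [map_inv, hδ]; group)
      (not_not.1 h0 ▸ hxy)
    refine ⟨π, T, W', a.symm, ?_, c⟩
    rw [← inv_eq_one, ← b]
    group
  let π : V → V := fun w => if w = y then x else w
  let T : V → F := fun w => if w = y then δ else 1
  have π0 : π C.v₀ = C.v₀ := if_neg h0.symm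
  have T0 : T C.v₀ = 1 := if_neg h0.symm
  have πW : ∀ w ∈ Y.W, π w ∈ Y.W.erase y := fun w hw => by
    by_cases k : w = y
    · rw [show π w = x from if_pos k]
      exact Finset.mem_erase.2 ⟨hxy, hx⟩
    · rw [show π w = w from if_neg k]
      exact Finset.mem_erase.2 ⟨k, hw⟩
  have κ : ∀ w, C.φ (T w) = C.h (π w) * (C.h w)⁻¹ := fun w => by
    by_cases k : w = y
    · rw [show T w = δ from if_pos k, show π w = x from if_pos k, k, hδ]
    · rw [show T w = 1 from if_neg k, show π w = w from if_neg k, map_one, mul_inv_cancel]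
  have mv : ∀ {a b z}, Y.Pa a b z → Pth (π ∘ Y.s) (π ∘ Y.t)
      (fun e => T (Y.s e) * Y.ψ e * (T (Y.t e))⁻¹) (fun e => e ∈ Y.S ∨ e ∈ Y.K) (π a) (π b)
        (T a * z * (T b)⁻¹) := fun q =>
    Pth.move π T (fun e he => Pth.edge (s := π ∘ Y.s) (t := π ∘ Y.t) he) q
  refine ⟨π, T, Y.W.erase y, (if_neg hxy).trans (if_pos rfl).symm, ?_, π0,
    Finset.card_erase_add_one hy, Finset.mem_erase.2 ⟨h0.symm, o.v0⟩,
    fun e he => ⟨πW _ (o.ends e he).1, πW _ (o.ends e he).2⟩, fun e he => ?_, fun e he => ?_,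
    o.disj, fun z hz => ?_, fun v hv => ?_, fun f hf => ?_, o.surf, o.nc⟩
  · rw [show T x = 1 from if_neg hxy, show T y = δ from if_pos rfl, one_mul, mul_inv_cancel]
  · simp only [map_mul, map_inv, κ, o.labs e he, comp_apply]
    group
  · obtain ⟨a, b, c⟩ := o.kil e he
    simp only [comp_apply, a, b, π0, T0, true_and]
    simpa using c
  · have := mv (o.loops z hz)
    rw [π0, T0] at this
    exact this.cast (by simp)
  · obtain ⟨z, q⟩ := o.conn v (Finset.mem_of_mem_erase hv)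
    have := mv q
    rw [π0, show π v = v from if_neg (Finset.mem_erase.1 hv).1] at this
    exact ⟨_, this⟩
  · obtain ⟨a, θ, b⟩ := o.faces f hf
    refine ⟨fun i => ⟨(a i).1, (a i).2.1, ?_⟩,
      fun i => θ i * (T (Y.src (C.ε i) (f i)))⁻¹, fun i => ?_⟩
    · have := congrArg π (a i).2.2
      revert this
      simp only [Dat.src, Dat.tgt]
      cases C.ε i <;> cases C.ε (C.σ i) <;> exact id
    · beta_reduce
      rw [b, ← (a i).2.2]
      simp only [Dat.src, Dat.tgt, Dat.val]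
      cases C.ε i <;> simp only [cond_true, cond_false] <;> group

theorem Ok.kill (o : Ok C H Y) {e₁ e₂ : E} (h1 : e₁ ∈ Y.S) (h2 : e₂ ∈ Y.S)
    (ne : e₁ ≠ e₂) (hl : C.lab e₁ = C.lab e₂) (hs : Y.s e₁ = Y.s e₂) (ht : Y.t e₁ = Y.t e₂) :
    ∃ z, Ok C H ⟨Y.W, Y.S.erase e₂, insert e₂ Y.K, update Y.s e₂ C.v₀, update Y.t e₂ C.v₀,
      update Y.ψ e₂ z, ∅⟩ := by
  have n2 := o.disj e₂ h2
  obtain ⟨x, px⟩ := o.conn _ (o.ends e₁ h1).1
  obtain ⟨p, pp⟩ : ∃ p, Pth Y.s Y.t Y.ψ (fun e => (e ∈ Y.S ∨ e ∈ Y.K) ∧ e ≠ e₂) C.v₀ (Y.s e₁) p :=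
    px.conn fun e he => by
      by_cases k : e = e₂
      · rw [k, ← hs, ← ht]
        exact ⟨_, Pth.edge ⟨Or.inl h1, ne⟩⟩
      · exact ⟨_, Pth.edge ⟨he, k⟩⟩
  refine ⟨p * Y.ψ e₂ * (Y.ψ e₁)⁻¹ * p⁻¹, ?_⟩
  generalize hz : p * Y.ψ e₂ * (Y.ψ e₁)⁻¹ * p⁻¹ = z
  have E1 : ∀ e, (e ∈ Y.S ∨ e ∈ Y.K) ∧ e ≠ e₂ → Pth (update Y.s e₂ C.v₀) (update Y.t e₂ C.v₀)
      (update Y.ψ e₂ z) (fun e => e ∈ Y.S.erase e₂ ∨ e ∈ insert e₂ Y.K) (Y.s e) (Y.t e) (Y.ψ e) :=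
    fun e he => by
      have := Pth.edge (s := update Y.s e₂ C.v₀) (t := update Y.t e₂ C.v₀) (ψ := update Y.ψ e₂ z)
        (P := fun e => e ∈ Y.S.erase e₂ ∨ e ∈ insert e₂ Y.K) (e := e)
        (he.1.imp (fun z => Finset.mem_erase.2 ⟨he.2, z⟩) Finset.mem_insert_of_mem)
      rwa [update_of_ne he.2, update_of_ne he.2, update_of_ne he.2] at this
  have E2 := Pth.edge (s := update Y.s e₂ C.v₀) (t := update Y.t e₂ C.v₀) (ψ := update Y.ψ e₂ z)
    (P := fun e => e ∈ Y.S.erase e₂ ∨ e ∈ insert e₂ Y.K) (e := e₂)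
    (Or.inr (Finset.mem_insert_self _ _))
  rw [update_self, update_self, update_self] at E2
  have mv : ∀ {a b x}, Y.Pa a b x → Pth (update Y.s e₂ C.v₀) (update Y.t e₂ C.v₀)
      (update Y.ψ e₂ z) (fun e => e ∈ Y.S.erase e₂ ∨ e ∈ insert e₂ Y.K) a b x := fun q =>
    q.same fun e he => by
      by_cases k : e = e₂
      · rw [k, ← hs, ← ht]
        exact ((((pp.same E1).symm.trans E2).trans (pp.same E1)).trans
          (E1 e₁ ⟨Or.inl h1, ne⟩)).cast (by rw [← hz]; group)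
      · exact E1 e ⟨he, k⟩
  refine ⟨o.v0, fun e he => ?_, fun e he => ?_, fun e he => ?_, fun e he => ?_,
    fun x hx => mv (o.loops x hx), fun v hv => (o.conn v hv).imp fun _ => mv, by simp, by simp,
    fun D h k => absurd (Finset.subset_empty.1 h) k.ne_empty⟩
  · obtain ⟨a, b⟩ := Finset.mem_erase.1 he
    simp only [update_of_ne a, o.ends e b, and_self]
  · obtain ⟨a, b⟩ := Finset.mem_erase.1 he
    simp only [update_of_ne a, o.labs e b]
  · rcases Finset.mem_insert.1 he with rfl | a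
    · simp only [update_self, true_and, ← hz, map_mul, map_inv, o.labs _ h1, o.labs _ h2, hl, hs,
        ht]
      group
    · have : e ≠ e₂ := fun k => n2 (k ▸ a)
      simp only [update_of_ne this, o.kil e a, and_self]
  · obtain ⟨a, b⟩ := Finset.mem_erase.1 he
    exact fun k => (Finset.mem_insert.1 k).elim a (o.disj e b)

/-- a new edge -/
def Dat.add (Y : Dat P V E F) (m : E) (b : Bool) (x y : V) (z : F) : Dat P V E F :=
  ⟨insert y Y.W, insert m Y.S, Y.K, update Y.s m (cond b x y), update Y.t m (cond b y x),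
    update Y.ψ m (cond b z z⁻¹), Y.Φ⟩

theorem add_new (m : E) (b : Bool) (x y : V) (z : F) : (Y.add m b x y z).src b m = x ∧
    (Y.add m b x y z).tgt b m = y ∧ (Y.add m b x y z).val b m = z := by
  cases b <;> simp [Dat.add, Dat.src, Dat.tgt, Dat.val]

theorem add_old {m e : E} (h : e ≠ m) (b b' : Bool) (x y : V) (z : F) :
    (Y.add m b x y z).src b' e = Y.src b' e ∧ (Y.add m b x y z).tgt b' e = Y.tgt b' e ∧
      (Y.add m b x y z).val b' e = Y.val b' e := by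
  simp [Dat.add, Dat.src, Dat.tgt, Dat.val, update_of_ne h]

theorem add_hom {m : E} (hm : m ∉ Y.S) (b : Bool) (x y : V) (z : F) :
    Hom C Y (Y.add m b x y z) id id :=
  ⟨rfl, fun e he => by
    have : e ≠ m := fun k => hm (k ▸ he)
    exact ⟨Finset.mem_insert_of_mem he, rfl, update_of_ne this _ _, update_of_ne this _ _⟩⟩

theorem add_pa {m : E} (hm : m ∉ Y.S) (hK : m ∉ Y.K) (b : Bool) (x y : V) (z : F) {a d : V} {u : F}
    (q : Y.Pa a d u) : (Y.add m b x y z).Pa a d u :=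
  q.same fun e he => by
    have k : e ≠ m := fun k => he.elim (fun z => hm (k ▸ z)) fun z => hK (k ▸ z)
    have := pth_dir (Y := Y.add m b x y z) (e := e)
      (Q := fun e => e ∈ (Y.add m b x y z).S ∨ e ∈ (Y.add m b x y z).K)
      (he.imp_left Finset.mem_insert_of_mem) true
    rwa [(add_old k ..).1, (add_old k ..).2.1, (add_old k ..).2.2] at this

theorem add_pa' (m : E) (b : Bool) (x y : V) (z : F) : (Y.add m b x y z).Pa x y z := by
  have := pth_dir (Y := Y.add m b x y z) (e := m)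
    (Q := fun e => e ∈ (Y.add m b x y z).S ∨ e ∈ (Y.add m b x y z).K)
    (Or.inl (Finset.mem_insert_self _ _)) b
  rwa [(add_new ..).1, (add_new ..).2.1, (add_new ..).2.2] at this

theorem Ok.add (o : Ok C H Y) {m : E} (hm : m ∉ Y.S) (hK : m ∉ Y.K) (b : Bool) {x : V}
    (hx : x ∈ Y.W) (y : V) {z : F}
    (hz : C.φ z = C.h x * cond b (C.gen (C.lab m)) (C.gen (C.lab m))⁻¹ * (C.h y)⁻¹) :
    Ok C H (Y.add m b x y z) := by
  have ne : ∀ e ∈ Y.S, e ≠ m := fun e he k => hm (k ▸ he)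
  refine ⟨Finset.mem_insert_of_mem o.v0, fun e he => ?_, fun e he => ?_, fun e he => ?_,
    fun e he => ?_, fun u hu => add_pa hm hK _ _ _ _ (o.loops u hu), fun v hv => ?_,
    fun f hf => ?_, o.surf, o.nc⟩
  · rcases Finset.mem_insert.1 he with rfl | a
    · cases b <;> simp [Dat.add, hx]
    · simp [Dat.add, update_of_ne (ne e a), o.ends e a]
  · rcases Finset.mem_insert.1 he with rfl | a
    · cases b
      · simp only [Dat.add, update_self, cond_false, map_inv, hz]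
        group
      · simpa only [Dat.add, update_self, cond_true] using hz
    · simp only [Dat.add, update_of_ne (ne e a), o.labs e a]
  · have : e ≠ m := fun k => hK (k ▸ he)
    simp only [Dat.add, update_of_ne this, o.kil e he, and_self]
  · rcases Finset.mem_insert.1 he with rfl | a
    exacts [hK, o.disj e a]
  · rcases Finset.mem_insert.1 hv with rfl | a
    · obtain ⟨u, q⟩ := o.conn x hx
      exact ⟨_, (add_pa hm hK _ _ _ _ q).trans (add_pa' ..)⟩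
    · exact (o.conn v a).imp fun _ => add_pa hm hK _ _ _ _
  · obtain ⟨a, θ, c⟩ := o.faces f hf
    exact ⟨fun i => ⟨Finset.mem_insert_of_mem (a i).1, (a i).2.1, by
      rw [(add_old (ne _ (a _).1) ..).2.1, (add_old (ne _ (a _).1) ..).1, (a i).2.2]⟩,
      θ, fun i => by rw [(add_old (ne _ (a _).1) ..).2.2, c]⟩

theorem Ok.face [DecidableEq (P → E)] (o : Ok C H Y) {f : P → E} (hf : Face C Y f)
    (hs : ∀ f' ∈ Y.Φ, ∀ i, f' i ≠ f i)
    (hn : ∀ D ⊆ insert f Y.Φ, f ∈ D → ∃ f₁ ∈ D, ∃ j, ∀ f' ∈ D, f' (C.star j) ≠ f₁ j) :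
    Ok C H { Y with Φ := insert f Y.Φ } := by
  refine ⟨o.v0, o.ends, o.labs, o.kil, o.disj, o.loops, o.conn, fun f' h => ?_,
    fun f₁ h₁ f₂ h₂ i e => ?_, fun D h k => ?_⟩
  · rcases Finset.mem_insert.1 h with rfl | a
    exacts [hf, o.faces f' a]
  · rcases Finset.mem_insert.1 h₁ with a | a <;> rcases Finset.mem_insert.1 h₂ with b | b
    exacts [a.trans b.symm, absurd (a ▸ e).symm (hs _ b i), absurd (b ▸ e) (hs _ a i),
      o.surf _ a _ b i e]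
  · by_cases q : f ∈ D
    · exact hn D h q
    · exact o.nc D ((Finset.subset_insert_iff_of_notMem q).1 h) k

/-- the label of a path that follows the relator -/
theorem Ok.close (o : Ok C H Y) {f : P → E} {v : P → V} {j : P} {θ : P → F}
    (hf : ∀ i, i ≠ j → f i ∈ Y.S ∧ C.lab (f i) = C.l i ∧ Y.src (C.ε i) (f i) = v i ∧
      Y.tgt (C.ε i) (f i) = v (C.σ i))
    (hθ : ∀ i, i ≠ j → θ (C.σ i) = θ i * Y.val (C.ε i) (f i)) :
    C.φ ((θ j)⁻¹ * θ (C.σ j)) = C.h (v j) * cond (C.ε j) (C.gen (C.l j)) (C.gen (C.l j))⁻¹ *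
      (C.h (v (C.σ j)))⁻¹ := by
  obtain ⟨η, hη⟩ := C.rel
  have := cyc_ind (C := C) j (Q := fun i => C.φ (θ i) * C.h (v i) * (η i)⁻¹ =
    C.φ (θ (C.σ j)) * C.h (v (C.σ j)) * (η (C.σ j))⁻¹) rfl (fun i hi q => by
      obtain ⟨a, b, c, d⟩ := hf i hi
      rw [← q, hθ i hi, map_mul, o.dlab a, b, c, d, hη]
      group) j
  rw [hη j] at this
  rw [map_mul, map_inv, eq_mul_inv_of_mul_eq (eq_mul_of_mul_inv_eq this)]
  group

end Pool.Agent.Work.MP_7ba843_gt.Y
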