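import Pool.Agent.Work.MP_7ba843_gt.Y.Qd

/-! Every admissible complex can be folded without raising the rank. -/

open Set Function

set_option linter.unusedSectionVars false

namespace Pool.Agent.Work.MP_7ba843_gt.Y

variable {Λ P V E F G : Type} [Group F] [Group G] {C : Cx Λ P V E F G} {H : Set F}
  {Y Z : Dat P V E F} [DecidableEq V] [DecidableEq E] [Fintype P]

theorem agree (o : Ok C H Z) (im : Imm C Z) {f : P → E} {v : P → V} {j : P}
    (hf : ∀ i, i ≠ j → f i ∈ Z.S ∧ C.lab (f i) = C.l i ∧ Z.src (C.ε i) (f i) = v i ∧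
      Z.tgt (C.ε i) (f i) = v (C.σ i)) {f₁ : P → E} (h₁ : f₁ ∈ Z.Φ) (k : P) :
    Z.src (C.ε k) (f₁ k) = v k ↔ Z.src (C.ε (C.σ j)) (f₁ (C.σ j)) = v (C.σ j) := by
  refine cyc_ind (C := C) j (Q := fun k => Z.src (C.ε k) (f₁ k) = v k ↔
    Z.src (C.ε (C.σ j)) (f₁ (C.σ j)) = v (C.σ j)) Iff.rfl (fun i hi q => ?_) k
  obtain ⟨a, b, c, d⟩ := hf i hi
  obtain ⟨a', b', c'⟩ := (o.faces f₁ h₁).1 i
  refine Iff.trans ⟨fun z => ?_, fun z => ?_⟩ q
  · rw [im.tgt a' a (b'.trans b.symm) (c'.trans (z.trans d.symm)), c]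
  · rw [← c', im _ a' _ a (b'.trans b.symm) _ (z.trans c.symm), d]

theorem parity (o : Ok C H Z) {f : P → E} {i₀ : P}
    (hj : ∀ i, i ≠ i₀ → Z.tgt (C.ε i) (f i) = Z.src (C.ε (C.σ i)) (f (C.σ i)))
    (hne : Z.tgt (C.ε i₀) (f i₀) ≠ Z.src (C.ε (C.σ i₀)) (f (C.σ i₀)))
    (hs : ∀ f' ∈ Z.Φ, ∀ i, f' i ≠ f i) {D : Finset (P → E)} (hD : ∀ f' ∈ D, f' = f ∨ f' ∈ Z.Φ)
    (hf : f ∈ D) : ∃ f₁ ∈ D, ∃ j, ∀ f' ∈ D, f' (C.star j) ≠ f₁ j := by
  classical
  by_contra q
  push Not at q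
  choose! p hp hq using q
  have su : ∀ f₁ ∈ D, ∀ f₂ ∈ D, ∀ i, f₁ i = f₂ i → f₁ = f₂ := fun f₁ h₁ f₂ h₂ i e => by
    rcases hD _ h₁ with a | a <;> rcases hD _ h₂ with b | b
    exacts [a.trans b.symm, absurd (a ▸ e).symm (hs _ b i), absurd (b ▸ e) (hs _ a i),
      o.surf _ a _ b i e]
  let χ : V → ZMod 2 := fun w => if w = Z.tgt (C.ε i₀) (f i₀) then 1 else 0
  have tw : ∀ a : ZMod 2, a + a = 0 := by decide
  have s1 : ∑ x ∈ D ×ˢ (Finset.univ : Finset P), (χ (Z.s (x.1 x.2)) + χ (Z.t (x.1 x.2))) = 0 := by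
    refine Finset.sum_involution (fun x _ => (p x.1 x.2, C.star x.2)) (fun x hx => ?_)
      (fun x _ _ e => C.st1 _ (congrArg Prod.snd e)) (fun x hx => ?_) fun x hx => ?_
    · have := hq x.1 (Finset.mem_product.1 hx).1 x.2
      simp only [this, tw]
    · exact Finset.mem_product.2 ⟨hp _ (Finset.mem_product.1 hx).1 _, Finset.mem_univ _⟩
    · have a := (Finset.mem_product.1 hx).1
      refine Prod.ext ?_ (C.st2 _)
      refine su _ (hp _ (hp _ a _) _) _ a x.2 ?_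
      have := hq _ (hp _ a x.2) (C.star x.2)
      rw [C.st2] at this
      exact this.trans (hq _ a _)
  have s2 : ∀ f' : P → E, ∑ i, (χ (Z.s (f' i)) + χ (Z.t (f' i))) =
      ∑ i, (χ (Z.tgt (C.ε i) (f' i)) + χ (Z.src (C.ε (C.σ i)) (f' (C.σ i)))) := fun f' => by
    rw [Finset.sum_add_distrib (f := fun i => χ (Z.tgt (C.ε i) (f' i))),
      Equiv.sum_comp C.σ fun i => χ (Z.src (C.ε i) (f' i)), ← Finset.sum_add_distrib]
    refine Finset.sum_congr rfl fun i _ => ?_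
    simp only [Dat.src, Dat.tgt]
    cases C.ε i
    exacts [rfl, add_comm _ _]
  rw [Finset.sum_product, Finset.sum_eq_single_of_mem f hf, s2,
    Finset.sum_eq_single i₀ (fun i _ hi => by rw [hj i hi, tw]) (by simp)] at s1
  · simp [χ, hne.symm] at s1
  · intro f' h' ne
    rw [s2]
    exact Finset.sum_eq_zero fun i _ => by
      rw [((o.faces f' ((hD _ h').resolve_left ne)).1 i).2.2, tw]

theorem move1 (o : Ok C H Z) (im : Imm C Z) {f : P → E} {i₀ : P}
    (hf : ∀ i, f i ∈ Z.S ∧ C.lab (f i) = C.l i)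
    (hj : ∀ i, i ≠ i₀ → Z.tgt (C.ε i) (f i) = Z.src (C.ε (C.σ i)) (f (C.σ i)))
    (hne : Z.tgt (C.ε i₀) (f i₀) ≠ Z.src (C.ε (C.σ i₀)) (f (C.σ i₀))) :
    ∃ Y π, Ok C H Y ∧ Hom C Z Y π id ∧ Y.S = Z.S ∧ Y.K = Z.K ∧ Y.rk ≤ Z.rk ∧
      π (Z.tgt (C.ε i₀) (f i₀)) = π (Z.src (C.ε (C.σ i₀)) (f (C.σ i₀))) := by
  classical
  have hf' : ∀ i, i ≠ i₀ → f i ∈ Z.S ∧ C.lab (f i) = C.l i ∧
      Z.src (C.ε i) (f i) = (fun i => Z.src (C.ε i) (f i)) i ∧
      Z.tgt (C.ε i) (f i) = (fun i => Z.src (C.ε i) (f i)) (C.σ i) :=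
    fun i hi => ⟨(hf i).1, (hf i).2, rfl, hj i hi⟩
  have hs : ∀ f' ∈ Z.Φ, ∀ i, f' i ≠ f i := fun f' h' i e => by
    have a := (agree o im hf' h' i).1 (by rw [e])
    have b := (agree o im hf' h' i₀).2 a
    obtain ⟨a', b', c'⟩ := (o.faces f' h').1 i₀
    have c := im _ a' _ (hf i₀).1 (b'.trans (hf i₀).2.symm) _ b
    exact hne (c ▸ c'.trans a)
  obtain ⟨θ, hθ⟩ := C.pot (fun i => Z.val (C.ε i) (f i)) i₀
  have cl := o.close hf' hθ
  obtain ⟨π, T, W', a, b, c, d, o'⟩ := o.ident (o.dend (hf i₀).1 (C.ε i₀)).2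
    (o.dend (hf (C.σ i₀)).1 (C.ε (C.σ i₀))).1 hne
    (δ := (Z.val (C.ε i₀) (f i₀))⁻¹ * ((θ i₀)⁻¹ * θ (C.σ i₀))) (by
      rw [map_mul, map_inv, cl, o.dlab (hf i₀).1, (hf i₀).2]
      group)
  have nf : f ∉ Z.Φ := fun h => hs f h i₀ rfl
  refine ⟨_, π, o'.face (f := f) ⟨fun i => ⟨(hf i).1, (hf i).2, ?_⟩,
    fun i => θ i * (T (Z.src (C.ε i) (f i)))⁻¹, fun i => ?_⟩ hs
      fun D h k => parity o hj hne hs (fun f' h' => Finset.mem_insert.1 (h h')) k,
    ⟨c, fun e he => ⟨he, rfl, rfl, rfl⟩⟩, rfl, rfl, ?_, a⟩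
  · have : π (Z.tgt (C.ε i) (f i)) = π (Z.src (C.ε (C.σ i)) (f (C.σ i))) := by
      by_cases k : i = i₀
      · rw [k, a]
      · rw [hj i k]
    revert this
    simp only [Dat.src, Dat.tgt]
    cases C.ε i <;> cases C.ε (C.σ i) <;> exact id
  · have : θ (C.σ i) * (T (Z.src (C.ε (C.σ i)) (f (C.σ i))))⁻¹ =
        θ i * Z.val (C.ε i) (f i) * (T (Z.tgt (C.ε i) (f i)))⁻¹ := by
      by_cases k : i = i₀
      · rw [k, ← mul_inv_eq_one.1 b]
        group
      · rw [hθ i k, hj i k]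
    beta_reduce
    rw [this]
    simp only [Dat.src, Dat.tgt, Dat.val]
    cases C.ε i <;> simp only [cond_true, cond_false] <;> group
  · simp only [Dat.rk, Finset.card_insert_of_notMem nf, ← d]
    push_cast
    omega

theorem reexp (o : Ok C H Z) (im : Imm C Z) (IH : ∀ Y, Ok C H Y → Y.S = Z.S → Res C H Y)
    {f : P → E} {v : P → V} {j : P}
    (hf : ∀ i, i ≠ j → f i ∈ Z.S ∧ C.lab (f i) = C.l i ∧ Z.src (C.ε i) (f i) = v i ∧
      Z.tgt (C.ε i) (f i) = v (C.σ i)) {m : E} (hm : m ∉ Z.S) (hK : m ∉ Z.K)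
    (hl : C.lab m = C.l j) : ∃ X π ρ e, Ok C H X ∧ Imm C X ∧ Hom C Z X π ρ ∧ e ∈ X.S ∧
      C.lab e = C.l j ∧ X.src (C.ε j) e = π (v j) ∧ X.tgt (C.ε j) e = π (v (C.σ j)) ∧
      X.S ⊆ insert m Z.S ∧ X.K ⊆ Z.S ∪ Z.K ∧ X.rk ≤ Z.rk := by
  classical
  have sj := sig_ne (C := C) j
  have pj : C.σ.symm j ≠ j := fun h => sj ((Equiv.symm_apply_eq _).1 h).symm
  by_cases q : ∃ e ∈ Z.S, C.lab e = C.l j ∧
      (Z.src (C.ε j) e = v j ∨ Z.tgt (C.ε j) e = v (C.σ j))
  · obtain ⟨e, he, hl', q⟩ := q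
    by_cases q' : Z.src (C.ε j) e = v j ∧ Z.tgt (C.ε j) e = v (C.σ j)
    · exact ⟨Z, id, id, e, o, im, ⟨rfl, fun e he => ⟨he, rfl, rfl, rfl⟩⟩, he, hl', q'.1, q'.2,
        Finset.subset_insert _ _, Finset.subset_union_right, le_rfl⟩
    have h1 : ∀ i, update f j e i ∈ Z.S ∧ C.lab (update f j e i) = C.l i := fun i => by
      by_cases k : i = j
      · rw [k, update_self]
        exact ⟨he, hl'⟩
      · rw [update_of_ne k]
        exact ⟨(hf i k).1, (hf i k).2.1⟩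
    obtain ⟨Y, π, a, b, c, d, g, k1, k2⟩ : ∃ Y π, Ok C H Y ∧ Hom C Z Y π id ∧ Y.S = Z.S ∧
        Y.K = Z.K ∧ Y.rk ≤ Z.rk ∧ π (Z.src (C.ε j) e) = π (v j) ∧
        π (Z.tgt (C.ε j) e) = π (v (C.σ j)) := by
      rcases q with q | q
      · obtain ⟨Y, π, a, b, c, d, g, k⟩ := move1 o im h1 (i₀ := j) (fun i hi => by
          rw [update_of_ne hi, (hf i hi).2.2.2]
          by_cases k : C.σ i = j
          · rw [k, update_self, q]
          · rw [update_of_ne k, (hf _ k).2.2.1]) (by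
            rw [update_self, update_of_ne sj, (hf _ sj).2.2.1]
            exact fun z => q' ⟨q, z⟩)
        rw [update_self, update_of_ne sj, (hf _ sj).2.2.1] at k
        exact ⟨Y, π, a, b, c, d, g, congrArg π q, k⟩
      · obtain ⟨Y, π, a, b, c, d, g, k⟩ := move1 o im h1 (i₀ := C.σ.symm j) (fun i hi => by
          have k : C.σ i ≠ j := fun z => hi ((Equiv.eq_symm_apply _).2 z)
          rw [update_of_ne k, (hf _ k).2.2.1]
          by_cases k : i = j
          · rw [k, update_self, q]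
          · rw [update_of_ne k, (hf _ k).2.2.2]) (by
            rw [update_of_ne pj, (hf _ pj).2.2.2, Equiv.apply_symm_apply, update_self]
            exact fun z => q' ⟨z.symm, q⟩)
        rw [update_of_ne pj, (hf _ pj).2.2.2, Equiv.apply_symm_apply, update_self] at k
        exact ⟨Y, π, a, b, c, d, g, k.symm, congrArg π q⟩
    obtain ⟨X, π', ρ, b1, b2, b3, b4, b5, b6⟩ := IH Y a c
    have hh := b.comp b3
    refine ⟨X, _, _, _, b1, b2, hh, (hh.2 e he).1, (hh.2 e he).2.1.trans hl',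
      (hh.src he _).1.trans (congrArg π' k1), (hh.src he _).2.trans (congrArg π' k2),
      (c ▸ b4).trans (Finset.subset_insert _ _), c ▸ d ▸ b5, b6.trans g⟩
  push Not at q
  obtain ⟨θ, hθ⟩ := C.pot (fun i => Z.val (C.ε i) (f i)) j
  have cl := o.close hf hθ
  have w1 : v j ∈ Z.W := by
    have := (hf _ pj).2.2.2
    rw [Equiv.apply_symm_apply] at this
    exact this ▸ (o.dend (hf _ pj).1 _).2
  have w2 : v (C.σ j) ∈ Z.W := (hf _ sj).2.2.1 ▸ (o.dend (hf _ sj).1 _).1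
  have ne : ∀ e ∈ Z.S, e ≠ m := fun e he k => hm (k ▸ he)
  have o' := o.add hm hK (C.ε j) w1 (v (C.σ j)) (z := (θ j)⁻¹ * θ (C.σ j)) (hl ▸ cl)
  have an := add_new (Y := Z) m (C.ε j) (v j) (v (C.σ j)) ((θ j)⁻¹ * θ (C.σ j))
  have ao := fun e he b => add_old (Y := Z) (ne e he) (C.ε j) b (v j) (v (C.σ j))
    ((θ j)⁻¹ * θ (C.σ j))
  have a1 : ∀ i, (Z.add m (C.ε j) (v j) (v (C.σ j)) ((θ j)⁻¹ * θ (C.σ j))).src (C.ε i)
      (update f j m i) = v i ∧ (Z.add m (C.ε j) (v j) (v (C.σ j)) ((θ j)⁻¹ * θ (C.σ j))).tgt (C.ε i)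
      (update f j m i) = v (C.σ i) := fun i => by
    by_cases k : i = j
    · rw [k, update_self]
      exact ⟨an.1, an.2.1⟩
    · rw [update_of_ne k, (ao _ (hf i k).1 _).1, (ao _ (hf i k).1 _).2.1]
      exact (hf i k).2.2
  have hs : ∀ f' ∈ Z.Φ, ∀ i, f' i ≠ update f j m i := fun f' h' i e => by
    by_cases k : i = j
    · rw [k, update_self] at e
      exact ne _ ((o.faces f' h').1 j).1 e
    · rw [update_of_ne k] at e
      exact (q _ ((o.faces f' h').1 j).1 ((o.faces f' h').1 j).2.1).1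
        ((agree o im hf h' j).2 ((agree o im hf h' i).1 (e ▸ (hf i k).2.2.1)))
  have nf : update f j m ∉ Z.Φ := fun h => hs _ h j rfl
  refine ⟨_, id, id, m, o'.face (f := update f j m) ⟨fun i => ⟨?_, ?_, (a1 i).2.trans (a1 _).1.symm⟩,
    θ, fun i => ?_⟩ hs fun D h k => ⟨_, k, j, fun f' h' => ?_⟩, ?_,
    add_hom hm (C.ε j) (v j) (v (C.σ j)) ((θ j)⁻¹ * θ (C.σ j)),
    Finset.mem_insert_self _ _, hl, an.1, an.2.1, Finset.Subset.refl _,
    Finset.subset_union_right, ?_⟩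
  · by_cases k : i = j
    · rw [k, update_self]
      exact Finset.mem_insert_self _ _
    · rw [update_of_ne k]
      exact Finset.mem_insert_of_mem (hf i k).1
  · by_cases k : i = j
    · rw [k, update_self, hl]
    · rw [update_of_ne k, (hf i k).2.1]
  · by_cases k : i = j
    · rw [k, update_self, an.2.2, mul_inv_cancel_left]
    · rw [update_of_ne k, (ao _ (hf i k).1 _).2.2, hθ i k]
  · rw [update_self]
    rcases Finset.mem_insert.1 (h h') with a | a
    · rw [a, update_of_ne (C.st1 j)]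
      exact ne _ (hf _ (C.st1 j)).1
    · exact ne _ ((o.faces f' a).1 _).1
  · have key : ∀ e ∈ Z.S, C.lab e = C.lab m → ∀ b,
        (Z.add m (C.ε j) (v j) (v (C.σ j)) ((θ j)⁻¹ * θ (C.σ j))).src b e ≠
          (Z.add m (C.ε j) (v j) (v (C.σ j)) ((θ j)⁻¹ * θ (C.σ j))).src b m := fun e he l b => by
      rw [(ao e he b).1]
      have a := q e he (l.trans hl)
      have a' := an
      revert a a'
      generalize Z.add m (C.ε j) (v j) (v (C.σ j)) ((θ j)⁻¹ * θ (C.σ j)) = X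
      simp only [Dat.src, Dat.tgt]
      cases C.ε j <;> cases b <;> simp only [cond_true, cond_false] <;> rintro a ⟨a1, a2, -⟩
      exacts [a1 ▸ a.1, a2 ▸ a.2, a2 ▸ a.2, a1 ▸ a.1]
    intro e he e' he' l b k
    rcases Finset.mem_insert.1 he with a | a <;> rcases Finset.mem_insert.1 he' with a' | a'
    · exact a.trans a'.symm
    · subst a
      exact absurd k.symm (key e' a' l.symm b)
    · subst a'
      exact absurd k (key e a l b)
    · exact im e a e' a' l b (((ao e a b).1.symm.trans k).trans (ao e' a' b).1)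
  · simp only [Dat.rk, Dat.add, Finset.card_insert_of_notMem nf, Finset.card_insert_of_notMem hm,
      Finset.insert_eq_of_mem w2]
    push_cast
    omega

theorem imm_ex (o : Ok C H Y) : Res C H Y := by
  classical
  induction hn : Y.S.card using Nat.strong_induction_on generalizing Y with
  | _ n ih =>
  subst hn
  rcases Y.Φ.eq_empty_or_nonempty with hΦ | hΦ
  · by_cases im : Imm C Y
    · exact ⟨Y, id, id, o, im, ⟨rfl, fun e he => ⟨he, rfl, rfl, rfl⟩⟩, Finset.Subset.refl _,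
        Finset.subset_union_right, le_rfl⟩
    unfold Imm at im
    push Not at im
    obtain ⟨e₁, h1, e₂, h2, hl, b, hs, ne⟩ := im
    have lt := Finset.card_erase_lt_of_mem h2
    have cd := Finset.card_erase_add_one h2
    by_cases ht : Y.tgt b e₁ = Y.tgt b e₂
    · have k : Y.s e₁ = Y.s e₂ ∧ Y.t e₁ = Y.t e₂ := by
        cases b
        exacts [⟨ht, hs⟩, ⟨hs, ht⟩]
      obtain ⟨z, o'⟩ := o.kill h1 h2 ne hl k.1 k.2
      refine (ih _ lt o' rfl).of (π := id) (ρ := update id e₂ e₁) ⟨rfl, fun e he => ?_⟩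
        (Finset.erase_subset _ _) (Finset.insert_subset (Finset.mem_union_left _ h2)
          Finset.subset_union_right) ?_
      · by_cases q : e = e₂
        · rw [q, update_self]
          exact ⟨Finset.mem_erase.2 ⟨ne, h1⟩, hl, (update_of_ne ne _ _).trans k.1,
            (update_of_ne ne _ _).trans k.2⟩
        · rw [update_of_ne q]
          exact ⟨Finset.mem_erase.2 ⟨q, he⟩, rfl, update_of_ne q _ _, update_of_ne q _ _⟩
      · simp only [Dat.rk, Finset.card_insert_of_notMem (o.disj _ h2), ← cd, hΦ]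
        push_cast
        omega
    obtain ⟨π, T, W', a, c, d, g, o'⟩ := o.ident (o.dend h1 b).2 (o.dend h2 b).2 ht
      (δ := (Y.val b e₁)⁻¹ * Y.val b e₂) (by
        rw [map_mul, map_inv, o.dlab h1, o.dlab h2, hl, hs]
        group)
    have k : π (Y.s e₁) = π (Y.s e₂) ∧ π (Y.t e₁) = π (Y.t e₂) ∧
        T (Y.s e₁) * Y.ψ e₁ * (T (Y.t e₁))⁻¹ = T (Y.s e₂) * Y.ψ e₂ * (T (Y.t e₂))⁻¹ := by
      have c' := mul_inv_eq_one.1 c
      revert a c' hs
      simp only [Dat.src, Dat.tgt, Dat.val]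
      cases b <;> simp only [cond_true, cond_false] <;> intro hs a c'
      · exact ⟨a, congrArg π hs, by rw [← c', hs]; group⟩
      · exact ⟨congrArg π hs, a, by rw [← c', hs]; group⟩
    have o'' := o'.erase (e₀ := e₂) (Φ' := ∅) (Finset.empty_subset _) (by simp) (by
      dsimp only [comp_apply]
      rw [← k.1, ← k.2.1, ← k.2.2]
      exact Pth.edge (s := π ∘ Y.s) (t := π ∘ Y.t) (Or.inl (Finset.mem_erase.2 ⟨ne, h1⟩)))
    refine (ih _ lt o'' rfl).of (π := π) (ρ := update id e₂ e₁) ⟨d, fun e he => ?_⟩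
      (Finset.erase_subset _ _) Finset.subset_union_right ?_
    · by_cases q : e = e₂
      · rw [q, update_self]
        exact ⟨Finset.mem_erase.2 ⟨ne, h1⟩, hl, k.1, k.2.1⟩
      · rw [update_of_ne q]
        exact ⟨Finset.mem_erase.2 ⟨q, he⟩, rfl, rfl, rfl⟩
    · simp only [Dat.rk, ← cd, ← g, hΦ]
      push_cast
      omega
  obtain ⟨f, hf, j, hj⟩ := o.nc _ (Finset.Subset.refl _) hΦ
  obtain ⟨a, θ, hθ⟩ := o.faces f hf
  have lt := Finset.card_erase_lt_of_mem (a j).1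
  have cd := Finset.card_erase_add_one (a j).1
  have cf := Finset.card_erase_add_one hf
  have k1 : ∀ f' ∈ Y.Φ, ∀ i, f' i = f j → f' = f ∧ i = j := fun f' h' i e => by
    rcases C.st3 i j ((((o.faces f' h').1 i).2.1.symm.trans (congrArg C.lab e)).trans (a j).2.1)
      with rfl | rfl
    exacts [⟨o.surf _ h' _ hf _ e, rfl⟩, absurd e (hj f' h')]
  have k2 : ∀ i, i ≠ j → f i ∈ Y.S.erase (f j) := fun i hi =>
    Finset.mem_erase.2 ⟨fun e => hi (k1 f hf i e).2, (a i).1⟩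
  have p := cyc_ind (C := C) j (Q := fun k => Pth Y.s Y.t Y.ψ
    (fun e => e ∈ Y.S.erase (f j) ∨ e ∈ Y.K) (Y.src (C.ε (C.σ j)) (f (C.σ j)))
      (Y.src (C.ε k) (f k)) ((θ (C.σ j))⁻¹ * θ k)) (Pth.nil.cast (by simp)) (fun i hi q => by
        rw [← (a i).2.2]
        exact (q.trans (pth_dir (Y := Y) (Q := fun e => e ∈ Y.S.erase (f j) ∨ e ∈ Y.K)
          (Or.inl (k2 i hi)) (C.ε i))).cast (by rw [hθ i, mul_assoc])) j
  rw [← (a j).2.2, hθ j] at p
  have o' := o.erase (e₀ := f j) (Finset.erase_subset f _)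
    (fun f' h' i e => (Finset.mem_erase.1 h').1 (k1 f' (Finset.mem_of_mem_erase h') i e).1) (by
      revert p
      simp only [Dat.src, Dat.tgt, Dat.val]
      cases C.ε j <;> simp only [cond_true, cond_false] <;> intro p
      · exact p.cast (by group)
      · exact p.symm.cast (by group))
  obtain ⟨Z, π, ρ, b1, b2, b3, b4, b5, b6⟩ := ih _ lt o' rfl
  obtain ⟨X, π', ρ', e', c1, c2, c3, c4, c5, c6, c7, c8, c9, c10⟩ := reexp b1 b2
    (fun Y' h e => ih _ (e ▸ (Finset.card_le_card b4).trans_lt lt) h rfl) (f := ρ ∘ f)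
    (v := fun i => π (Y.src (C.ε i) (f i))) (j := j) (fun i hi =>
      ⟨(b3.2 _ (k2 i hi)).1, (b3.2 _ (k2 i hi)).2.1.trans (a i).2.1, (b3.src (k2 i hi) _).1,
        (b3.src (k2 i hi) _).2.trans (congrArg π (a i).2.2)⟩) (m := f j)
    (fun h => Finset.notMem_erase _ _ (b4 h)) (fun h => (Finset.mem_union.1 (b5 h)).elim
      (Finset.notMem_erase _ _) (o.disj _ (a j).1)) (a j).2.1
  have hh := b3.comp c3
  refine ⟨X, π' ∘ π, update (ρ' ∘ ρ) (f j) e', c1, c2, ⟨hh.1, fun e he => ?_⟩,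
    c8.trans (Finset.insert_subset (a j).1 (b4.trans (Finset.erase_subset _ _))),
    c9.trans (Finset.union_subset ((b4.trans (Finset.erase_subset _ _)).trans
      Finset.subset_union_left) (b5.trans (Finset.union_subset_union_left
        (Finset.erase_subset _ _)))), c10.trans (b6.trans ?_)⟩
  · by_cases q : e = f j
    · rw [q, update_self]
      refine ⟨c4, c5.trans (a j).2.1.symm, ?_⟩
      rw [← (a j).2.2] at c7
      revert c6 c7
      simp only [Dat.src, Dat.tgt]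
      cases C.ε j
      exacts [fun x y => ⟨y, x⟩, fun x y => ⟨x, y⟩]
    · rw [update_of_ne q]
      exact hh.2 e (Finset.mem_erase.2 ⟨q, he⟩)
  · simp only [Dat.rk, ← cd, ← cf]
    push_cast
    omega

end Pool.Agent.Work.MP_7ba843_gt.Y
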