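import Pool.Agent.Work.MP_7ba843_gt.X.Fin

/-! Dunwoody's theorem on generating tuples of finite solvable groups. -/

open Set Function

namespace Pool.Agent.Work.MP_7ba843_gt.Y

open Pool.Agent.Work.MP_7ba843_gt.C Pool.Agent.Work.MP_7ba843_gt.X Pool.Agent.Work.MP_7ba843_gt.S

variable {ι G : Type} [DecidableEq ι] [Group G]

theorem NE_conj {M : Subgroup G} [M.Normal] (hM : ∀ a ∈ M, ∀ b ∈ M, a * b = b * a) {t : ι → G}
    (ht : Subgroup.closure (range t) = ⊤) {p : ι} (hp : t p ∈ M) (g : G) :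
    NE t (update t p (g * t p * g⁻¹)) := by
  have h1 : Subgroup.closure (t '' {j | j ≠ p}) ⊔ M = ⊤ := by
    refine top_unique (ht.ge.trans ((Subgroup.closure_le _).2 ?_))
    rintro _ ⟨i, rfl⟩
    by_cases q : i = p
    · exact Subgroup.mem_sup_right (q ▸ hp)
    · exact Subgroup.mem_sup_left (Subgroup.subset_closure ⟨i, q, rfl⟩)
  have h2 : g ∈ (Subgroup.closure (t '' {j | j ≠ p}) ⊔ M : Subgroup G) := h1 ▸ Subgroup.mem_top g
  obtain ⟨w, hw, m, hm, rfl⟩ := Subgroup.mem_sup_of_normal_right.1 h2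
  have k : ∀ x y, y ∈ Subgroup.closure (t '' {j | j ≠ p}) →
      NE (update t p x) (update t p (x * y)) := fun x y hy => by
    have := NE.mul_mem (update t p x) p (w := y) (by
      rwa [image_congr (s := {j | j ≠ p}) (f := update t p x) (g := t)
        fun j hj => update_of_ne hj _ _])
    rwa [update_idem, update_self] at this
  have := NE_trans (NE_trans (NE_trans (AlgM_inv t p (t p)) (k _ _ (inv_mem hw))) (AlgM_inv t p _))
    (k _ _ (inv_mem hw))
  rw [update_eq_self] at this
  convert this using 2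
  rw [mul_assoc w, hM m hm _ hp]
  group

theorem NE_mod {M : Subgroup G} [M.Normal] (hM : ∀ a ∈ M, ∀ b ∈ M, a * b = b * a) {p i : ι}
    (hi : i ≠ p) {m₀ : G} (h0 : m₀ ∈ M) {m : G} (hm : m ∈ Subgroup.normalClosure {m₀}) :
    ∀ t : ι → G, Subgroup.closure (range t) = ⊤ → t p = m₀ → NE t (update t i (t i * m)) := by
  have k : ∀ g m, m ∈ Subgroup.zpowers (g * m₀ * g⁻¹) → ∀ t : ι → G,
      Subgroup.closure (range t) = ⊤ → t p = m₀ → NE t (update t i (t i * m)) := by
    intro g m hm t ht hp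
    have h1 := NE_conj hM ht (hp ▸ h0) g
    have h2 := NE.mul_mem (update t p (g * t p * g⁻¹)) i (w := m) (by
      refine Subgroup.zpowers_le.2 (Subgroup.subset_closure ?_) hm
      exact ⟨p, hi.symm, by rw [update_self, hp]⟩)
    have h3 := NE_trans h1 h2
    have h4 := NE_conj hM (h3.closure ▸ ht) (p := p) (by
      rw [update_of_ne hi.symm, update_self, hp]
      exact ‹M.Normal›.conj_mem _ h0 _) g⁻¹
    have h5 := NE_trans h3 h4
    rw [update_of_ne hi.symm, update_self, update_of_ne hi, update_comm hi, update_idem,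
      show g⁻¹ * (g * t p * g⁻¹) * g⁻¹⁻¹ = t p by group, update_eq_self] at h5
    exact h5
  induction hm using Subgroup.closure_induction'' with
  | mem x hx =>
    obtain ⟨_, rfl, hc⟩ := Group.mem_conjugatesOfSet_iff.1 hx
    obtain ⟨c, rfl⟩ := isConj_iff.1 hc
    exact k c _ (Subgroup.mem_zpowers _)
  | inv_mem x hx =>
    obtain ⟨_, rfl, hc⟩ := Group.mem_conjugatesOfSet_iff.1 hx
    obtain ⟨c, rfl⟩ := isConj_iff.1 hc
    exact k c _ (inv_mem (Subgroup.mem_zpowers _))
  | one => exact fun t _ _ => by rw [mul_one, update_eq_self]; exact .refl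
  | mul x y _ _ hx hy =>
    intro t ht hp
    have h1 := hx t ht hp
    have h2 := hy _ (h1.closure ▸ ht) ((update_of_ne hi.symm _ _).trans hp)
    rw [update_idem, update_self, mul_assoc] at h2
    exact NE_trans h1 h2

theorem NE_ext [Finite ι] {M : Subgroup G} [M.Normal] (nb : M ≠ ⊥)
    (ab : ∀ a ∈ M, ∀ b ∈ M, a * b = b * a)
    (cl : ∀ m ∈ M, m ≠ 1 → M ≤ Subgroup.normalClosure {m}) (j : ι) (s : Finset ι) (hj : j ∉ s)
    {v w : ι → G} (hv : Subgroup.closure (range v) = ⊤) (hw : Subgroup.closure (w '' s) = ⊤)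
    (h1 : ∀ i ∉ s, w i = 1) (h : NE (QuotientGroup.mk' M ∘ v) (QuotientGroup.mk' M ∘ w)) :
    NE v w := by
  obtain ⟨v', a1, a2⟩ := NE_lift (QuotientGroup.mk' M) h
  have a3 : ∀ i, (v' i)⁻¹ * w i ∈ M := fun i => QuotientGroup.eq.1 (congrFun a2 i)
  obtain ⟨u, p, b1, b2, b3, b4, b5⟩ : ∃ u p, NE v' u ∧ p ∉ s ∧ u p ∈ M ∧ u p ≠ 1 ∧
      ∀ i ∈ s, u i = v' i := by
    by_cases q : v' j = 1
    · obtain ⟨⟨m, hm⟩, ne⟩ := Subgroup.ne_bot_iff_exists_ne_one.1 nb
      refine ⟨update v' j m, j, NE_upd _ _ ?_, hj, (update_self j m v').symm ▸ hm,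
        (update_self j m v').symm ▸ fun e => ne (Subtype.ext e),
        fun i hi => update_of_ne (fun e : i = j => hj (e ▸ hi)) _ _⟩
      refine (a1.closure ▸ hv).ge.trans ((Subgroup.closure_le _).2 ?_) (Subgroup.mem_top _)
      rintro _ ⟨i, rfl⟩
      by_cases k : i = j
      · rw [k, q]
        exact one_mem _
      · exact Subgroup.subset_closure ⟨i, k, rfl⟩
    · exact ⟨v', j, .refl, hj, by simpa [h1 j hj] using a3 j, q, fun _ _ => rfl⟩
  have c1 := NE_trans a1 b1
  have key : ∀ D : Finset ι, D ⊆ s → NE v (D.piecewise w u) := by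
    intro D
    induction D using Finset.induction_on with
    | empty => exact fun _ => c1
    | insert i D hi ih' =>
      intro h
      rw [Finset.insert_subset_iff] at h
      have := NE_mod ab (p := p) (i := i) (fun e => b2 (e ▸ h.1)) b3 (cl _ b3 b4 (a3 i)) _
        ((ih' h.2).closure ▸ hv) (Finset.piecewise_eq_of_notMem _ _ _ fun e => b2 (h.2 e))
      rw [Finset.piecewise_eq_of_notMem _ _ _ hi, b5 i h.1, mul_inv_cancel_left] at this
      rw [Finset.piecewise_insert]
      exact NE_trans (ih' h.2) this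
  exact NE_trans (key s (Finset.Subset.refl _)) (AlgB_fill (s := fun i : s => w i)
    (by rw [← hw, image_eq_range]; rfl) s (fun p hp => Finset.piecewise_eq_of_mem _ _ _ hp)
    fun p => ⟨p.1, p.2, rfl⟩)

/-- redundant generating tuples are equivalent -/
def Uni (A : Type) [Group A] : Prop := ∀ r g, Gens A r → r < g → One A g

theorem uni_ext (n : ℕ) : ∀ (G Q : Type) [Group G] [Group Q] (f : G →* Q), Surjective f →
    Finite f.ker → Group.IsSolvable f.ker → Nat.card f.ker = n → Uni Q → Uni G := by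
  induction n using Nat.strong_induction_on with
  | _ n ih =>
  intro G Q _ _ f hf _ _ hn hQ r g hr hg
  by_cases z : f.ker = ⊥
  · exact (hQ r g (Fin_gens hr hf) hg).equiv
      (MulEquiv.ofBijective f ⟨(MonoidHom.ker_eq_bot_iff f).1 z, hf⟩).symm
  obtain ⟨M, hM⟩ := exists_minimal_of_wellFoundedLT
    (fun M : Subgroup f.ker => (M.map f.ker.subtype).Normal ∧ M ≠ ⊥)
    ⟨⊤, by rw [← MonoidHom.range_eq_map, Subgroup.range_subtype]; infer_instance, by
      have := (Subgroup.nontrivial_iff_ne_bot _).2 z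
      exact top_ne_bot⟩
  obtain ⟨⟨_, nb⟩, -⟩ := id hM
  have inj := f.ker.subtype_injective
  have nb' : M.map f.ker.subtype ≠ ⊥ := fun e => nb ((Subgroup.map_eq_bot_iff_of_injective _ inj).1 e)
  have le : M.map f.ker.subtype ≤ f.ker := Subgroup.map_subtype_le M
  have ab : ∀ a ∈ M.map f.ker.subtype, ∀ b ∈ M.map f.ker.subtype, a * b = b * a := by
    rintro _ ⟨a, ha, rfl⟩ _ ⟨b, hb, rfl⟩
    have lt := Group.IsSolvable.commutator_lt_of_ne_bot nb
    have e : ⁅M, M⁆ = ⊥ := by
      by_contra q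
      exact lt.not_ge (hM.le_of_le ⟨by rw [Subgroup.map_commutator]; infer_instance, q⟩ lt.le)
    have := Subgroup.commutator_mem_commutator ha hb
    rw [e, Subgroup.mem_bot, commutatorElement_eq_one_iff_mul_comm] at this
    rw [← map_mul, this, map_mul]
  have cl : ∀ m ∈ M.map f.ker.subtype, m ≠ 1 →
      M.map f.ker.subtype ≤ Subgroup.normalClosure {m} := fun m hm ne => by
    have l1 : Subgroup.normalClosure {m} ≤ M.map f.ker.subtype :=
      Subgroup.normalClosure_le_normal (by simpa using hm)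
    have l2 := Subgroup.map_subgroupOf_eq_of_le (l1.trans le)
    rw [← l2]
    refine Subgroup.map_mono (hM.le_of_le ⟨by rw [l2]; infer_instance, fun e => ne ?_⟩
      ((Subgroup.map_le_map_iff_of_injective inj).1 (l2.symm ▸ l1)))
    rw [e, Subgroup.map_bot] at l2
    exact Subgroup.mem_bot.1 (l2 ▸ Subgroup.subset_normalClosure rfl)
  generalize M.map f.ker.subtype = N at *
  have sj := (QuotientGroup.mk' N).subgroupMap_surjective f.ker
  have fin := Finite.of_surjective _ sj
  have hU : Uni (G ⧸ N) := by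
    refine ih _ ?_ _ Q (QuotientGroup.lift N f le) (fun x => (hf x).elim fun y hy => ⟨y, hy⟩)
      (QuotientGroup.ker_lift N f le ▸ fin)
      (QuotientGroup.ker_lift N f le ▸ Group.isSolvable_of_surjective sj) rfl hQ
    rw [QuotientGroup.ker_lift, ← hn]
    have := Fintype.ofFinite f.ker
    have := Fintype.ofFinite (f.ker.map (QuotientGroup.mk' N))
    rw [Nat.card_eq_fintype_card, Nat.card_eq_fintype_card]
    refine Fintype.card_lt_of_surjective_not_injective _ sj fun h => nb' ?_
    refine (Subgroup.eq_bot_iff_forall _).2 fun x hx => ?_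
    exact congrArg Subtype.val ((injective_iff_map_eq_one _).1 h ⟨x, le hx⟩
      (Subtype.ext ((QuotientGroup.eq_one_iff x).2 hx)))
  have sq := QuotientGroup.mk'_surjective N
  have o := hU r g (Fin_gens hr sq) hg
  obtain ⟨s, hs⟩ := hr
  have h2 : Subgroup.closure ((fun i : Fin g => AlgB_ext s i) ''
      (Finset.univ.filter fun i : Fin g => i.1 < r)) = ⊤ :=
    top_unique (hs.ge.trans (Subgroup.closure_mono (by
      rintro _ ⟨a, rfl⟩
      exact ⟨⟨a, a.2.trans hg⟩, by simp, AlgB_ext_val s a⟩)))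
  have key : ∀ v : Fin g → G, Subgroup.closure (range v) = ⊤ → NE v fun i => AlgB_ext s i :=
    fun v hv => NE_ext nb' ab cl ⟨r, hg⟩ _ (by simp) hv h2 (fun i hi => dif_neg (by simpa using hi))
      (o _ _ (AlgB_gen hv sq) (AlgB_gen
        (top_unique (h2.ge.trans (Subgroup.closure_mono (image_subset_range _ _)))) sq))
  exact fun v w hv hw => NE_trans (key v hv) (key w hw).symm

end Pool.Agent.Work.MP_7ba843_gt.Y
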